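import Pool.Agent.Q26.FO.Smooth

/-!
# Smooth forms outside of countably many hypersurfaces
-/

set_option autoImplicit false

namespace Pool.Agent.Q26.FO

open MvPolynomial

section

variable {α : Type} [Finite α]

theorem exists_eval_ne_zero {P : MvPolynomial α ℂ} (hP : P ≠ 0) {V : Set (α → ℂ)}
    (hV : IsOpen V) (hne : V.Nonempty) : ∃ c ∈ V, eval c P ≠ 0 := by
  have : Fintype α := Fintype.ofFinite α
  obtain ⟨c, hc⟩ := hne
  obtain ⟨ε, hε, hball⟩ := Metric.isOpen_iff.1 hV c hc
  by_contra h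
  push Not at h
  refine hP (funext_set (fun i => Metric.ball (c i) ε) (fun i => ?_) fun x hx => ?_)
  · exact infinite_of_mem_nhds (c i) (Metric.ball_mem_nhds (c i) hε)
  · rw [map_zero]
    refine h x (hball ?_)
    rw [Metric.mem_ball, dist_pi_lt_iff hε]
    exact fun i => hx i (Set.mem_univ i)

theorem exists_avoiding {ι : Type} [Countable ι] (P : ι → MvPolynomial α ℂ) (hP : ∀ k, P k ≠ 0)
    {V : Set (α → ℂ)} (hV : IsOpen V) (hne : V.Nonempty) :
    ∃ c ∈ V, ∀ k, eval c (P k) ≠ 0 := by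
  have : Fintype α := Fintype.ofFinite α
  have h1 : Dense (⋂ k, {c : α → ℂ | eval c (P k) ≠ 0}) := by
    refine dense_iInter_of_isOpen (fun k => ?_) fun k => ?_
    · exact isOpen_ne_fun (MvPolynomial.continuous_eval (P k)) continuous_const
    · rw [dense_iff_inter_open]
      intro U hU hUn
      obtain ⟨c, hc, h⟩ := exists_eval_ne_zero (hP k) hU hUn
      exact ⟨c, hc, h⟩
  obtain ⟨c, hc1, hc2⟩ := h1.inter_open_nonempty V hV hne
  exact ⟨c, hc1, fun k => Set.mem_iInter.1 hc2 k⟩

end

theorem pderiv_form {R : Type} [CommRing R] {r d : ℕ} (c : Idx r d → R) (i : Fin r)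
    (x : Fin r → R) : eval x (pderiv i (form c)) =
      ∑ m : Idx r d, c m * eval x (pderiv i (monomial m.1 1)) := by
  unfold form
  rw [map_sum, map_sum]
  refine Finset.sum_congr rfl fun m _ => ?_
  rw [← mul_one (c m), ← C_mul_monomial, pderiv_C_mul, map_mul, eval_C, mul_one]

theorem isOpen_isSmooth (r d : ℕ) : IsOpen {c : Idx r (d + 1) → ℂ | IsSmooth (form c)} := by
  let S : Type := Metric.sphere (0 : Fin r → ℂ) 1
  have hS : CompactSpace S := isCompact_iff_compactSpace.1 (isCompact_sphere _ _)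
  let Z : Set (S × (Idx r (d + 1) → ℂ)) := {z | ∀ i, eval z.1.1 (pderiv i (form z.2)) = 0}
  have hZ : IsClosed Z := by
    have h1 : Z = ⋂ i, {z | eval z.1.1 (pderiv i (form z.2)) = 0} := by
      ext z
      simp [Z]
    rw [h1]
    refine isClosed_iInter fun i => isClosed_eq ?_ continuous_const
    simp only [pderiv_form]
    refine continuous_finsetSum _ fun m _ => ?_
    refine Continuous.mul ?_ ?_
    · exact (continuous_apply m).comp continuous_snd
    · exact (MvPolynomial.continuous_eval _).comp (continuous_subtype_val.comp continuous_fst)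
  have h2 := isClosedMap_snd_of_compactSpace (X := S) Z hZ
  rw [← isOpen_compl_iff] at h2
  convert h2 using 1
  ext c
  rw [Set.mem_ofPred_eq, Set.mem_compl_iff]
  constructor
  · rintro h ⟨⟨x, c'⟩, hx, rfl⟩
    have h3 := h x.1 hx
    have h4 := x.2
    rw [h3] at h4
    simp at h4
  · intro h x hx
    by_contra hx0
    have hn : ‖x‖ ≠ 0 := norm_ne_zero_iff.2 hx0
    refine h ⟨(⟨((‖x‖⁻¹ : ℝ) : ℂ) • x, ?_⟩, c), ?_, rfl⟩
    · rw [mem_sphere_zero_iff_norm, norm_smul]
      simp [hn]
    · intro i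
      have h5 : (pderiv i (form c)).IsHomogeneous d := (form_isHomogeneous c).pderiv
      have h6 := eval_smul_form h5 ((‖x‖⁻¹ : ℝ) : ℂ) x
      rw [hx i, mul_zero] at h6
      exact h6

/-- the Fermat form -/
theorem exists_isSmooth (r d : ℕ) : {c : Idx r (d + 2) → ℂ | IsSmooth (form c)}.Nonempty := by
  let F : MvPolynomial (Fin r) ℂ := ∑ i, X i ^ (d + 2)
  have hF : F.IsHomogeneous (d + 2) := by
    refine IsHomogeneous.sum _ _ _ fun i _ => ?_
    have h1 := (isHomogeneous_X ℂ i).pow (d + 2)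
    simpa using h1
  refine ⟨fun m => coeff m.1 F, ?_⟩
  rw [Set.mem_ofPred_eq, form_coeff F hF]
  intro x hx
  funext i
  have h1 := hx i
  have h2 : pderiv i F = C ((d + 2 : ℕ) : ℂ) * X i ^ (d + 1) := by
    simp only [F]
    rw [map_sum, Finset.sum_eq_single i]
    · rw [pderiv_pow, pderiv_X_self, mul_one, map_natCast]
      rfl
    · intro j _ hj
      rw [pderiv_pow, pderiv_X_of_ne hj, mul_zero]
    · intro h
      exact absurd (Finset.mem_univ i) h
  rw [h2, map_mul, eval_C, map_pow, eval_X, mul_eq_zero] at h1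
  have h3 : ((d + 2 : ℕ) : ℂ) ≠ 0 := Nat.cast_ne_zero.2 (by omega)
  exact pow_eq_zero_iff (by omega) |>.1 (h1.resolve_left h3)

end Pool.Agent.Q26.FO
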