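import Mathlib

/-!
# First-order properties of points of affine spaces over algebraically closed fields
-/

set_option autoImplicit false

namespace Pool.Agent.Q26.FO

open FirstOrder FirstOrder.Language FirstOrder.Ring FirstOrder.Field Cardinal Filter

/-- a property of the points of the affine space `K ^ α`, for all fields `K` -/
abbrev Pred (α : Type) := ∀ (K : Type) [Field K], (α → K) → Prop

/-- over algebraically closed fields, the property `P` is given by a first-order formula in the
language of rings -/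
def IsFirstOrder {α : Type} (P : Pred α) : Prop :=
  ∃ φ : Language.ring.Formula α, ∀ (K : Type) [Field K] [IsAlgClosed K] [CompatibleRing K]
    (x : α → K), φ.Realize x ↔ P K x

/-- all points of `K ^ α` have the property `P` -/
def HoldsOver {α : Type} (P : Pred α) (K : Type) [Field K] : Prop := ∀ x : α → K, P K x

section closure

variable {α β : Type}

theorem IsFirstOrder.congr {P Q : Pred α} (hP : IsFirstOrder P)
    (h : ∀ (K : Type) [Field K] [IsAlgClosed K] (x : α → K), P K x ↔ Q K x) :
    IsFirstOrder Q := by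
  obtain ⟨φ, hφ⟩ := hP
  exact ⟨φ, fun K _ _ _ x => (hφ K x).trans (h K x)⟩

theorem IsFirstOrder.imp {H C : Pred α} (hH : IsFirstOrder H) (hC : IsFirstOrder C) :
    IsFirstOrder (fun K _ x => H K x → C K x) := by
  obtain ⟨φ, hφ⟩ := hH
  obtain ⟨ψ, hψ⟩ := hC
  refine ⟨φ.imp ψ, fun K _ _ _ x => ?_⟩
  rw [Formula.realize_imp, hφ, hψ]

theorem IsFirstOrder.and {H C : Pred α} (hH : IsFirstOrder H) (hC : IsFirstOrder C) :
    IsFirstOrder (fun K _ x => H K x ∧ C K x) := by
  obtain ⟨φ, hφ⟩ := hH
  obtain ⟨ψ, hψ⟩ := hC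
  refine ⟨φ ⊓ ψ, fun K _ _ _ x => ?_⟩
  rw [Formula.realize_inf, hφ, hψ]

theorem IsFirstOrder.not {H : Pred α} (hH : IsFirstOrder H) :
    IsFirstOrder (fun K _ x => ¬ H K x) := by
  obtain ⟨φ, hφ⟩ := hH
  refine ⟨φ.not, fun K _ _ _ x => ?_⟩
  rw [Formula.realize_not, hφ]

theorem IsFirstOrder.or {H C : Pred α} (hH : IsFirstOrder H) (hC : IsFirstOrder C) :
    IsFirstOrder (fun K _ x => H K x ∨ C K x) := by
  refine (hH.not.and hC.not).not.congr fun K _ _ x => ?_
  tauto

/-- the vanishing of a polynomial with integral coefficients is first-order -/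
theorem isFirstOrder_eval (f : MvPolynomial α ℤ) :
    IsFirstOrder (fun K _ (x : α → K) => MvPolynomial.aeval x f = 0) := by
  let g : FreeCommRing α := (freeCommRingEquivMvPolynomialInt α).symm f
  refine ⟨Term.equal (termOfFreeCommRing g) (termOfFreeCommRing 0), fun K _ _ _ x => ?_⟩
  rw [Formula.realize_equal, realize_termOfFreeCommRing, realize_termOfFreeCommRing, map_zero]
  have h : FreeCommRing.lift x g = MvPolynomial.aeval x f := by
    have h1 : (FreeCommRing.lift x).comp
        (freeCommRingEquivMvPolynomialInt α).symm.toRingHom =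
        (MvPolynomial.aeval x : MvPolynomial α ℤ →ₐ[ℤ] K).toRingHom := by
      refine MvPolynomial.ringHom_ext (fun n => ?_) fun i => ?_
      · simp
      · have h2 : (freeCommRingEquivMvPolynomialInt α).symm (MvPolynomial.X i) =
            FreeCommRing.of i := by
          rw [RingEquiv.symm_apply_eq]
          simp [freeCommRingEquivMvPolynomialInt]
        simp [h2]
    exact congrArg (fun e : MvPolynomial α ℤ →+* K => e f) h1
  rw [h]

/-- first-order properties are stable under existential quantification -/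
theorem IsFirstOrder.ex [Finite β] {Q : Pred (α ⊕ β)} (hQ : IsFirstOrder Q) :
    IsFirstOrder (fun K _ (x : α → K) => ∃ u : β → K, Q K (Sum.elim x u)) := by
  obtain ⟨φ, hφ⟩ := hQ
  refine ⟨φ.iExs β, fun K _ _ _ x => ?_⟩
  rw [Formula.realize_iExs]
  exact exists_congr fun u => hφ K _

theorem isFirstOrder_true : IsFirstOrder (fun _ _ (_ : α → _) => True) := by
  refine (isFirstOrder_eval (0 : MvPolynomial α ℤ)).congr fun K _ _ x => ?_
  simp

/-- finite conjunctions of first-order properties are first-order -/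
theorem isFirstOrder_forall_mem {ι : Type} (s : Finset ι) (P : ι → Pred α)
    (hP : ∀ i ∈ s, IsFirstOrder (P i)) : IsFirstOrder (fun K _ x => ∀ i ∈ s, P i K x) := by
  classical
  induction s using Finset.induction_on with
  | empty => exact isFirstOrder_true.congr fun K _ _ x => by simp
  | insert a s ha ih =>
    refine ((hP a (Finset.mem_insert_self a s)).and
      (ih fun i hi => hP i (Finset.mem_insert_of_mem hi))).congr fun K _ _ x => ?_
    rw [Finset.forall_mem_insert]

theorem isFirstOrder_forall {ι : Type} [Finite ι] (P : ι → Pred α)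
    (hP : ∀ i, IsFirstOrder (P i)) : IsFirstOrder (fun K _ x => ∀ i, P i K x) := by
  have := Fintype.ofFinite ι
  refine (isFirstOrder_forall_mem Finset.univ P fun i _ => hP i).congr fun K _ _ x => ?_
  simp

end closure

section transfer

variable {α : Type}

/-- the sentence `∀ x, φ x` -/
noncomputable def allSentence [Finite α] (φ : Language.ring.Formula α) :
    Language.ring.Sentence :=
  Formula.iAlls α (φ.relabel (Sum.inr : α → Empty ⊕ α))

theorem realize_allSentence [Finite α] (φ : Language.ring.Formula α) (K : Type)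
    [Language.ring.Structure K] : K ⊨ allSentence φ ↔ ∀ x : α → K, φ.Realize x := by
  unfold allSentence Sentence.Realize
  rw [Formula.realize_iAlls]
  refine forall_congr' fun x => ?_
  rw [Formula.realize_relabel]
  exact Iff.rfl

theorem IsFirstOrder.sentence [Finite α] {P : Pred α} (hP : IsFirstOrder P) :
    ∃ ψ : Language.ring.Sentence, ∀ (K : Type) [Field K] [IsAlgClosed K] [CompatibleRing K],
      K ⊨ ψ ↔ HoldsOver P K := by
  obtain ⟨φ, hφ⟩ := hP
  refine ⟨allSentence φ, fun K _ _ _ => ?_⟩
  rw [realize_allSentence]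
  exact forall_congr' fun x => hφ K x

/-- a first-order property holds over one algebraically closed field of characteristic `p` iff
it holds over all of them -/
theorem IsFirstOrder.holdsOver_iff [Finite α] {P : Pred α} (hP : IsFirstOrder P) (p : ℕ)
    (hp : p.Prime ∨ p = 0) (K L : Type) [Field K] [IsAlgClosed K] [CharP K p] [Field L]
    [IsAlgClosed L] [CharP L p] : HoldsOver P K ↔ HoldsOver P L := by
  obtain ⟨ψ, hψ⟩ := hP.sentence
  let _ := compatibleRingOfRing K
  let _ := compatibleRingOfRing L
  have h := ACF_isComplete hp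
  rw [← hψ K, ← hψ L, h.realize_sentence_iff, h.realize_sentence_iff]

/-- an algebraic closure of the field with `p` elements -/
noncomputable abbrev Fbar (p : Nat.Primes) : Type :=
  letI : Fact (p : ℕ).Prime := ⟨p.2⟩
  AlgebraicClosure (ZMod p)

noncomputable instance (p : Nat.Primes) : Field (Fbar p) :=
  letI : Fact (p : ℕ).Prime := ⟨p.2⟩
  inferInstanceAs (Field (AlgebraicClosure (ZMod p)))

instance (p : Nat.Primes) : IsAlgClosed (Fbar p) :=
  letI : Fact (p : ℕ).Prime := ⟨p.2⟩
  inferInstanceAs (IsAlgClosed (AlgebraicClosure (ZMod p)))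

instance (p : Nat.Primes) : CharP (Fbar p) p :=
  letI : Fact (p : ℕ).Prime := ⟨p.2⟩
  inferInstanceAs (CharP (AlgebraicClosure (ZMod p)) p)

/-- **Lefschetz principle** -/
theorem IsFirstOrder.lefschetz [Finite α] {P : Pred α} (hP : IsFirstOrder P) (K : Type)
    [Field K] [IsAlgClosed K] [CharZero K] :
    (HoldsOver P K ↔ {p : Nat.Primes | HoldsOver P (Fbar p)}.Infinite) ∧
    (HoldsOver P K ↔ {p : Nat.Primes | ¬ HoldsOver P (Fbar p)}.Finite) := by
  obtain ⟨ψ, hψ⟩ := hP.sentence
  let _ := compatibleRingOfRing K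
  have h0 : HoldsOver P K ↔ Theory.ACF 0 ⊨ᵇ ψ := by
    rw [← hψ K]
    exact (ACF_isComplete (Or.inr rfl)).realize_sentence_iff ψ K
  have hp : ∀ p : Nat.Primes, HoldsOver P (Fbar p) ↔ Theory.ACF p ⊨ᵇ ψ := by
    intro p
    let _ := compatibleRingOfRing (Fbar p)
    rw [← hψ (Fbar p)]
    exact (ACF_isComplete (Or.inl p.2)).realize_sentence_iff ψ (Fbar p)
  constructor
  · rw [h0, ACF_zero_realize_iff_infinite_ACF_prime_realize]
    simp only [hp]
  · rw [h0, ACF_zero_realize_iff_finite_ACF_prime_not_realize]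
    simp only [hp]
    rfl

theorem IsFirstOrder.iff_of_ringEquiv {P : Pred α} (hP : IsFirstOrder P) {K L : Type}
    [Field K] [IsAlgClosed K] [Field L] [IsAlgClosed L] (e : K ≃+* L) (x : α → K) :
    P K x ↔ P L (e ∘ x) := by
  obtain ⟨φ, hφ⟩ := hP
  let _ := compatibleRingOfRing K
  let _ := compatibleRingOfRing L
  rw [← hφ, ← hφ]
  exact (StrongHomClass.realize_formula (languageEquivEquivRingEquiv.symm e) φ).symm

/-- decreasing first-order properties, each of which holds for some complex point, hold
simultaneously for some complex point -/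
theorem saturated (P : ℕ → Pred α) (hP : ∀ n, IsFirstOrder (P n))
    (anti : ∀ (m n : ℕ), m ≤ n → ∀ (K : Type) [Field K] (x : α → K), P n K x → P m K x)
    (h : ∀ n, ∃ x : α → ℂ, P n ℂ x) : ∃ x : α → ℂ, ∀ n, P n ℂ x := by
  let U : Ultrafilter ℕ := hyperfilter ℕ
  let _ := compatibleRingOfRing ℂ
  let K : Type := (U : Filter ℕ).Product (fun _ => ℂ)
  have hmodel : (Theory.ACF 0).Model K := by
    refine ⟨fun φ hφ => ?_⟩
    rw [Ultraproduct.sentence_realize]
    exact Eventually.of_forall fun _ => Theory.realize_sentence_of_mem (Theory.ACF 0) hφ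
  let _ : Field K := fieldOfModelACF 0 K
  have := modelField_of_modelACF 0 K
  let _ := compatibleRingOfModelField K
  have := isAlgClosed_of_model_ACF 0 K
  have hchar := charP_of_model_fieldOfChar 0 K
  have hle : #K ≤ 𝔠 := by
    have h1 : #K ≤ #(ℕ → ℂ) := Cardinal.mk_le_of_surjective (f := Quotient.mk _)
      Quotient.mk_surjective
    refine h1.trans ?_
    rw [← Cardinal.power_def, mk_nat, mk_complex, continuum_power_aleph0]
  have hge : 𝔠 ≤ #K := by
    rw [← mk_complex]
    refine Cardinal.mk_le_of_injective (f := fun z : ℂ =>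
      ((fun _ => z : ∀ _ : ℕ, ℂ) : (U : Filter ℕ).Product (fun _ => ℂ))) ?_
    intro z w hzw
    have h1 : ∀ᶠ _ in (U : Filter ℕ), z = w := Quotient.eq''.1 hzw
    exact h1.exists.choose_spec
  have hcard : #K = 𝔠 := le_antisymm hle hge
  obtain ⟨e⟩ := IsAlgClosed.ringEquiv_of_equiv_of_char_eq (K := K) (L := ℂ) 0
    (by rw [hcard]; exact aleph0_lt_continuum)
    (Cardinal.eq.1 (by rw [hcard, mk_complex]))
  choose x hx using h
  let y : α → K := fun i => ((fun n => x n i : ∀ _ : ℕ, ℂ) : (U : Filter ℕ).Product _)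
  refine ⟨e ∘ y, fun m => ?_⟩
  rw [← (hP m).iff_of_ringEquiv e y]
  obtain ⟨φ, hφ⟩ := hP m
  rw [← hφ K y]
  refine (Ultraproduct.realize_formula_cast φ (fun (i : α) (n : ℕ) => x n i)).2 ?_
  have h1 : ∀ᶠ n in (U : Filter ℕ), m ≤ n := by
    have h2 : ∀ᶠ n in (cofinite : Filter ℕ), m ≤ n := by
      rw [Nat.cofinite_eq_atTop]
      exact eventually_ge_atTop m
    exact Filter.hyperfilter_le_cofinite h2
  filter_upwards [h1] with n hn
  exact (hφ ℂ (x n)).2 (anti m n hn ℂ (x n) (hx n))

end transfer

end Pool.Agent.Q26.FO
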