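import Mathlib

/-!
# Homogenization of polynomials
-/

set_option autoImplicit false

namespace Pool.Agent.Q26.FO

open MvPolynomial

/-- the homogenization of `h` of degree `e` with the new variable `x_0` -/
noncomputable def homog {K : Type} [CommRing K] {n : ℕ} (e : ℕ) (h : MvPolynomial (Fin n) K) :
    MvPolynomial (Fin (n + 1)) K :=
  ∑ m ∈ h.support, monomial (Finsupp.cons (e - m.degree) m) (coeff m h)

theorem degree_cons {n : ℕ} (a : ℕ) (m : Fin n →₀ ℕ) :
    (Finsupp.cons a m).degree = a + m.degree := by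
  rw [Finsupp.degree_eq_sum, Finsupp.degree_eq_sum, Fin.sum_univ_succ]
  simp

theorem degree_le_totalDegree {K : Type} [CommRing K] {n : ℕ} {h : MvPolynomial (Fin n) K}
    {m : Fin n →₀ ℕ} (hm : m ∈ h.support) : m.degree ≤ h.totalDegree := by
  have h1 := le_totalDegree hm
  rwa [Finsupp.degree_eq_sum, ← Finsupp.sum_fintype m (fun _ k => k) (fun _ => rfl)]

theorem homog_isHomogeneous {K : Type} [CommRing K] {n : ℕ} (e : ℕ) (h : MvPolynomial (Fin n) K)
    (he : h.totalDegree ≤ e) : (homog e h).IsHomogeneous e := by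
  unfold homog
  refine IsHomogeneous.sum _ _ _ fun m hm => ?_
  refine isHomogeneous_monomial _ ?_
  rw [degree_cons]
  have h1 := degree_le_totalDegree hm
  omega

/-- the values of the homogenization -/
theorem aeval_homog {K S : Type} [CommRing K] [CommRing S] [Algebra K S] {n : ℕ} (e : ℕ)
    (h : MvPolynomial (Fin n) K) (he : h.totalDegree ≤ e) (v : Fin (n + 1) → S) (u : Fin n → S)
    (hv : ∀ j, v j.succ = v 0 * u j) : aeval v (homog e h) = v 0 ^ e * aeval u h := by
  unfold homog
  rw [map_sum, aeval_def, eval₂_eq, Finset.mul_sum]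
  refine Finset.sum_congr rfl fun m hm => ?_
  rw [aeval_monomial, Finsupp.prod_fintype _ _ (fun _ => pow_zero _), Fin.prod_univ_succ]
  have h1 := degree_le_totalDegree hm
  have h2 : ∏ i ∈ m.support, u i ^ m i = ∏ i, u i ^ m i := by
    rw [← Finsupp.prod_fintype m (fun i k => u i ^ k) (fun _ => pow_zero _)]
    rfl
  rw [h2]
  simp only [Finsupp.cons_zero, Finsupp.cons_succ, hv, mul_pow]
  rw [Finset.prod_mul_distrib, Finset.prod_pow_eq_pow_sum, ← Finsupp.degree_eq_sum]
  have h3 : v 0 ^ e = v 0 ^ (e - m.degree) * v 0 ^ m.degree := by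
    rw [← pow_add]
    congr 1
    omega
  rw [h3]
  ring

/-- dehomogenization: `x_0 = 1` -/
noncomputable def dehom {K : Type} [CommRing K] {n : ℕ} (F : MvPolynomial (Fin (n + 1)) K) :
    MvPolynomial (Fin n) K :=
  aeval (Fin.cases (motive := fun _ => MvPolynomial (Fin n) K) 1 (fun j => X j)) F

/-- the value of a form of degree `d` at `(c, c u_1, …, c u_n)` -/
theorem aeval_of_isHomogeneous {K S : Type} [CommRing K] [CommRing S] [Algebra K S] {n : ℕ}
    (d : ℕ) (F : MvPolynomial (Fin (n + 1)) K) (hF : F.IsHomogeneous d) (v : Fin (n + 1) → S)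
    (u : Fin n → S) (hv : ∀ j, v j.succ = v 0 * u j) :
    aeval v F = v 0 ^ d * aeval u (dehom F) := by
  have h0 : aeval u (dehom F) = aeval (Fin.cases (motive := fun _ => S) 1 u) F := by
    unfold dehom
    rw [← AlgHom.comp_apply, comp_aeval]
    congr 2
    funext i
    refine Fin.cases ?_ (fun j => ?_) i
    · simp
    · simp
  rw [h0, aeval_def, aeval_def, eval₂_eq, eval₂_eq, Finset.mul_sum]
  refine Finset.sum_congr rfl fun m hm => ?_
  have h2 : ∀ w : Fin (n + 1) → S, ∏ i ∈ m.support, w i ^ m i = ∏ i, w i ^ m i := by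
    intro w
    rw [← Finsupp.prod_fintype m (fun i k => w i ^ k) (fun _ => pow_zero _)]
    rfl
  rw [h2, h2, Fin.prod_univ_succ, Fin.prod_univ_succ]
  have h3 : m.degree = d := by
    by_contra h4
    exact (mem_support_iff.1 hm) (hF.coeff_eq_zero h4)
  have h5 : m 0 + ∑ j : Fin n, m j.succ = d := by
    rw [← h3, Finsupp.degree_eq_sum, Fin.sum_univ_succ]
  simp only [hv, mul_pow, Fin.cases_zero, Fin.cases_succ, one_pow, one_mul]
  rw [Finset.prod_mul_distrib, Finset.prod_pow_eq_pow_sum, ← h5, pow_add]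
  ring

end Pool.Agent.Q26.FO
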