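import Pool.Agent.Q26.FO.Cubic
import Pool.Agent.Q26.FO.Homog

/-!
# Birational parametrizations and function fields
-/

set_option autoImplicit false

namespace Pool.Agent.Q26.FO

open MvPolynomial

section trdeg

variable {K : Type} [Field K] {n : ℕ}

/-- the affine coordinate ring of the hypersurface `F = 0` in the chart `x_0 = 1` -/
abbrev Coord (F : MvPolynomial (Fin (n + 2)) K) : Type :=
  MvPolynomial (Fin (n + 1)) K ⧸ Ideal.span {dehom F}

theorem trdeg_lt (f : MvPolynomial (Fin (n + 1)) K) (hf : f ≠ 0)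
    [IsDomain (MvPolynomial (Fin (n + 1)) K ⧸ Ideal.span {f})] :
    Algebra.trdeg K (MvPolynomial (Fin (n + 1)) K ⧸ Ideal.span {f}) < ((n + 1 : ℕ) : Cardinal) := by
  by_contra h
  rw [not_lt] at h
  let x : Fin (n + 1) → (MvPolynomial (Fin (n + 1)) K ⧸ Ideal.span {f}) :=
    fun j => Ideal.Quotient.mkₐ K _ (X j)
  have h1 : Algebra.adjoin K (Set.range x) = ⊤ := by
    have h2 : Set.range x = (Ideal.Quotient.mkₐ K (Ideal.span {f})) '' (Set.range X) := by
      rw [← Set.range_comp]
      rfl
    rw [h2, ← AlgHom.map_adjoin, adjoin_range_X, Algebra.map_top, AlgHom.range_eq_top]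
    exact Ideal.Quotient.mkₐ_surjective K _
  have h3 : Algebra.IsAlgebraic (Algebra.adjoin K (Set.range x))
      (MvPolynomial (Fin (n + 1)) K ⧸ Ideal.span {f}) := by
    refine ⟨fun a => ?_⟩
    have ha : a ∈ Algebra.adjoin K (Set.range x) := by rw [h1]; exact Algebra.mem_top
    exact isAlgebraic_algebraMap (⟨a, ha⟩ : Algebra.adjoin K (Set.range x))
  have h4 := Algebra.IsAlgebraic.isTranscendenceBasis_of_le_trdeg_of_finite K x (by simpa using h)
  have h5 := h4.1
  rw [algebraicIndependent_iff] at h5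
  refine hf (h5 f ?_)
  have h6 : (aeval x : MvPolynomial (Fin (n + 1)) K →ₐ[K] _) =
      Ideal.Quotient.mkₐ K (Ideal.span {f}) := by
    refine algHom_ext fun i => ?_
    rw [aeval_X]
  rw [h6]
  exact Ideal.Quotient.eq_zero_iff_mem.2 (Ideal.mem_span_singleton_self f)

theorem trdeg_fractionRing (A : Type) [CommRing A] [IsDomain A] [Algebra K A] :
    Algebra.trdeg K (FractionRing A) = Algebra.trdeg K A := by
  have : FaithfulSMul K A := (faithfulSMul_iff_algebraMap_injective K A).2
    (algebraMap K A).injective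
  have : Algebra.IsAlgebraic A (FractionRing A) :=
    IsLocalization.isAlgebraic (FractionRing A) (nonZeroDivisors A)
  obtain ⟨s, hs⟩ := exists_isTranscendenceBasis K A
  have h1 := hs.algebraMap_comp (A := FractionRing A)
  rw [← hs.cardinalMk_eq_trdeg, ← h1.cardinalMk_eq_trdeg]

theorem X_dvd (c : MvPolynomial (Fin (n + 1)) K)
    (h : aeval (Fin.cons 0 X : Fin (n + 1) → MvPolynomial (Fin n) K) c = 0) : X 0 ∣ c := by
  have h1 : (aeval (Fin.cons 0 X : Fin (n + 1) → MvPolynomial (Fin n) K)) =
      ((Polynomial.aeval (0 : MvPolynomial (Fin n) K)).restrictScalars K).comp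
        (finSuccEquiv K n).toAlgHom := by
    refine algHom_ext fun i => ?_
    refine Fin.cases ?_ (fun j => ?_) i
    · simp [finSuccEquiv_X_zero]
    · simp [finSuccEquiv_X_succ]
  rw [h1] at h
  have h2 : Polynomial.X ∣ finSuccEquiv K n c := by
    rw [Polynomial.X_dvd_iff, Polynomial.coeff_zero_eq_eval_zero]
    simpa [Polynomial.aeval_def] using h
  rw [← finSuccEquiv_X_zero] at h2
  exact (map_dvd_iff (finSuccEquiv K n)).1 h2

/-- the transfer of relations -/
theorem relation {B : Type} [CommRing B] [Algebra K B] (h0 q : B) (h : Fin n → B)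
    (c : MvPolynomial (Fin (n + 1)) K) {S : Type} [Field S] [Algebra K S] (ρ : B →ₐ[K] S)
    (hρ : ρ h0 ≠ 0) :
    ρ (aeval (Fin.cons h0 (Fin.cons (q * h0) h) : Fin (n + 2) → B) (homog c.totalDegree c)) =
      ρ h0 ^ c.totalDegree *
        aeval (Fin.cons (ρ q) (fun i => ρ (h i) / ρ h0) : Fin (n + 1) → S) c := by
  rw [← AlgHom.comp_apply, comp_aeval, aeval_homog c.totalDegree c le_rfl _
    (Fin.cons (ρ q) (fun i => ρ (h i) / ρ h0) : Fin (n + 1) → S)]
  · simp
  · intro j
    refine Fin.cases ?_ (fun i => ?_) j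
    · simp [mul_comm]
    · simp only [Fin.cons_succ, Fin.cons_zero]
      rw [mul_div_cancel₀]
      exact hρ

theorem injective_of_trdeg {A : Type} [CommRing A] [IsDomain A] [Algebra K A]
    (hA : Algebra.trdeg K A < ((n + 1 : ℕ) : Cardinal))
    (ψ : A →ₐ[K] FractionRing (MvPolynomial (Fin n) K)) (h0 : A) (h : Fin n → A)
    (hψ0 : ψ h0 ≠ 0)
    (hψ : ∀ i, ψ (h i) = algebraMap (MvPolynomial (Fin n) K) _ (X i) * ψ h0) :
    Function.Injective ψ := by
  rw [injective_iff_map_eq_zero]
  intro a ha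
  by_contra ha0
  have hi : Function.Injective (algebraMap A (FractionRing A)) := IsFractionRing.injective _ _
  let ρ : A →ₐ[K] FractionRing A := IsScalarTower.toAlgHom K A (FractionRing A)
  have hρi : Function.Injective ρ := hi
  have h00 : h0 ≠ 0 := fun h1 => hψ0 (by rw [h1, map_zero])
  have hρ : ρ h0 ≠ 0 := fun h1 => h00 (hρi (by rw [h1, map_zero]))
  have hρa : ρ a ≠ 0 := fun h1 => ha0 (hρi (by rw [h1, map_zero]))
  let w : Fin (n + 1) → FractionRing A := Fin.cons (ρ a) (fun i => ρ (h i) / ρ h0)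
  have hdvd : ∀ c : MvPolynomial (Fin (n + 1)) K, aeval w c = 0 → X 0 ∣ c := by
    intro c hc
    have h1 := relation h0 a h c ρ hρ
    rw [show (Fin.cons (ρ a) (fun i => ρ (h i) / ρ h0) : Fin (n + 1) → FractionRing A) = w
      from rfl, hc, mul_zero] at h1
    have h2 := hρi (h1.trans (map_zero ρ).symm)
    have h3 := relation h0 a h c ψ hψ0
    rw [h2, map_zero, eq_comm, mul_eq_zero] at h3
    have h4 := h3.resolve_left (pow_ne_zero _ hψ0)
    refine X_dvd c ?_
    have h5 : (Fin.cons (ψ a) (fun i => ψ (h i) / ψ h0) :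
        Fin (n + 1) → FractionRing (MvPolynomial (Fin n) K)) =
        fun i => IsScalarTower.toAlgHom K (MvPolynomial (Fin n) K)
          (FractionRing (MvPolynomial (Fin n) K)) ((Fin.cons 0 X :
            Fin (n + 1) → MvPolynomial (Fin n) K) i) := by
      funext i
      refine Fin.cases ?_ (fun j => ?_) i
      · simp [ha]
      · simp only [Fin.cons_succ]
        rw [hψ j, mul_div_cancel_right₀ _ hψ0]
        rfl
    rw [h5, ← comp_aeval, AlgHom.comp_apply] at h4
    have h6 : Function.Injective (IsScalarTower.toAlgHom K (MvPolynomial (Fin n) K)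
          (FractionRing (MvPolynomial (Fin n) K))) := IsFractionRing.injective _ _
    exact h6 (h4.trans (map_zero _).symm)
  have hind : ∀ N : ℕ, ∀ c : MvPolynomial (Fin (n + 1)) K, c.totalDegree < N → aeval w c = 0 →
      c = 0 := by
    intro N
    induction N with
    | zero => exact fun c hc _ => absurd hc (Nat.not_lt_zero _)
    | succ N ih =>
      intro c hc h1
      by_contra hc0
      obtain ⟨c', rfl⟩ := hdvd c h1
      have hc' : c' ≠ 0 := fun h2 => hc0 (by rw [h2, mul_zero])
      rw [totalDegree_mul_of_isDomain (X_ne_zero 0) hc', totalDegree_X] at hc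
      rw [map_mul, aeval_X, mul_eq_zero] at h1
      exact hc' (ih c' (by omega) (h1.resolve_left hρa))
  have hAI : AlgebraicIndependent K w := by
    rw [algebraicIndependent_iff]
    intro c hc
    exact hind _ c (Nat.lt_succ_self _) hc
  have h7 := hAI.cardinalMk_le_trdeg
  rw [trdeg_fractionRing] at h7
  refine absurd (lt_of_le_of_lt h7 hA) ?_
  simp

theorem surjective_of_mem {A : Type} [CommRing A] [IsDomain A] [Algebra K A]
    (ψ : FractionRing A →ₐ[K] FractionRing (MvPolynomial (Fin n) K)) 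
    (hψ : ∀ i, algebraMap (MvPolynomial (Fin n) K) _ (X i) ∈ ψ.range) :
    Function.Surjective ψ := by
  have h1 : ∀ c : MvPolynomial (Fin n) K,
      algebraMap (MvPolynomial (Fin n) K) (FractionRing (MvPolynomial (Fin n) K)) c ∈ ψ.range := by
    intro c
    induction c using MvPolynomial.induction_on with
    | C a =>
      have h2 : algebraMap (MvPolynomial (Fin n) K) (FractionRing (MvPolynomial (Fin n) K)) (C a) =
        algebraMap K _ a := by
        rw [IsScalarTower.algebraMap_apply K (MvPolynomial (Fin n) K)]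
        rfl
      rw [h2]
      exact Subalgebra.algebraMap_mem _ a
    | add p q hp hq => rw [map_add]; exact add_mem hp hq
    | mul_X p i hp => rw [map_mul]; exact mul_mem hp (hψ i)
  intro y
  obtain ⟨a, b, hb, rfl⟩ := IsFractionRing.div_surjective (A := MvPolynomial (Fin n) K) y
  obtain ⟨a', ha'⟩ := h1 a
  obtain ⟨b', hb'⟩ := h1 b
  refine ⟨a' / b', ?_⟩
  rw [map_div₀, ← ha', ← hb']
  rfl

end trdeg

/-- the hypersurface `F = 0` is rational over `K`: the total ring of fractions of its affine
coordinate ring in the chart `x_0 = 1` is isomorphic to the field of rational functions in `n`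
variables -/
def IsRational (n : ℕ) (K : Type) [Field K] (F : MvPolynomial (Fin (n + 2)) K) : Prop :=
  Nonempty (FractionRing (Coord F) ≃ₐ[K] FractionRing (MvPolynomial (Fin n) K))

section

variable {K : Type} [Field K] {n : ℕ}

/-- a parametrization of an irreducible hypersurface gives rationality -/
theorem HasParametrization.isRational {d D : ℕ} {F : MvPolynomial (Fin (n + 2)) K}
    (hF : F.IsHomogeneous d) (hirr : Irreducible (dehom F)) (h : HasParametrization n D K F) :
    IsRational n K F := by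
  obtain ⟨g, H, -, hH, hg0, hF0, hH0, hHi⟩ := h
  have hprime : (Ideal.span {dehom F}).IsPrime :=
    (Ideal.span_singleton_prime hirr.ne_zero).2 hirr.prime
  have hdom : IsDomain (Coord F) := Ideal.Quotient.isDomain _
  let L := FractionRing (MvPolynomial (Fin n) K)
  let ι : MvPolynomial (Fin n) K →ₐ[K] L := IsScalarTower.toAlgHom K (MvPolynomial (Fin n) K) L
  have hι : Function.Injective ι := IsFractionRing.injective _ _
  have hg0' : ι (g 0) ≠ 0 := fun h1 => hg0 (hι (h1.trans (map_zero ι).symm))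
  let l : Fin (n + 1) → L := fun j => ι (g j.succ) / ι (g 0)
  have hl : ∀ j : Fin (n + 1), ι (g j.succ) = ι (g 0) * l j := fun j =>
    (mul_div_cancel₀ _ hg0').symm
  have hval : ∀ (e : ℕ) (G : MvPolynomial (Fin (n + 2)) K), G.IsHomogeneous e →
      ι (bind₁ g G) = ι (g 0) ^ e * aeval l (dehom G) := by
    intro e G hG
    rw [← aeval_of_isHomogeneous e G hG (fun i => ι (g i)) l hl, bind₁, ← AlgHom.comp_apply,
      comp_aeval]
  let φ : MvPolynomial (Fin (n + 1)) K →ₐ[K] L := aeval l
  have hφ : φ (dehom F) = 0 := by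
    have h1 := hval d F hF
    rw [hF0, map_zero, eq_comm, mul_eq_zero] at h1
    exact h1.resolve_left (pow_ne_zero _ hg0')
  let ψ : Coord F →ₐ[K] L := Ideal.Quotient.liftₐ _ φ (fun a ha => by
    obtain ⟨b, rfl⟩ := Ideal.mem_span_singleton'.1 ha
    rw [map_mul, hφ, mul_zero])
  have hψ : ∀ a, ψ (Ideal.Quotient.mk _ a) = φ a := fun a => rfl
  have hq0 : φ (dehom (H 0)) ≠ 0 := by
    intro h1
    refine hH0 (hι ?_)
    rw [hval D _ (hH 0), map_zero]
    rw [show aeval l (dehom (H 0)) = 0 from h1, mul_zero]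
  have hqi : ∀ i : Fin n, φ (dehom (H i.succ)) = ι (X i) * φ (dehom (H 0)) := by
    intro i
    have h1 := congrArg ι (hHi i)
    rw [map_mul, hval D _ (hH _), hval D _ (hH _)] at h1
    have h2 := pow_ne_zero D hg0'
    refine mul_left_cancel₀ h2 ?_
    rw [show φ (dehom (H i.succ)) = aeval l (dehom (H i.succ)) from rfl, h1]
    simp only [φ]
    ring
  have hinj : Function.Injective ψ :=
    injective_of_trdeg (trdeg_lt (dehom F) hirr.ne_zero) ψ (Ideal.Quotient.mk _ (dehom (H 0)))
      (fun i => Ideal.Quotient.mk _ (dehom (H i.succ))) (by rw [hψ]; exact hq0)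
      (fun i => by rw [hψ, hψ]; exact hqi i)
  let Φ : FractionRing (Coord F) →ₐ[K] L := IsFractionRing.liftAlgHom hinj
  have hΦ : ∀ a : Coord F, Φ (algebraMap _ _ a) = ψ a := fun a => by
    simp only [Φ]
    exact IsFractionRing.lift_algebraMap hinj a
  refine ⟨AlgEquiv.ofBijective Φ ⟨RingHom.injective Φ.toRingHom, surjective_of_mem Φ ?_⟩⟩
  intro i
  refine ⟨algebraMap _ _ (Ideal.Quotient.mk _ (dehom (H i.succ)) : Coord F) /
    algebraMap _ _ (Ideal.Quotient.mk _ (dehom (H 0)) : Coord F), ?_⟩
  have h3 : Φ (algebraMap _ _ (Ideal.Quotient.mk _ (dehom (H i.succ)) : Coord F) /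
    algebraMap _ _ (Ideal.Quotient.mk _ (dehom (H 0)) : Coord F)) = ι (X i) := by
    rw [map_div₀, hΦ, hΦ, hψ, hψ, hqi, mul_div_cancel_right₀ _ hq0]
  exact h3

/-- a rational hypersurface has a parametrization of some degree -/
theorem IsRational.hasParametrization {d : ℕ} {F : MvPolynomial (Fin (n + 2)) K}
    (hF : F.IsHomogeneous d) (h : IsRational n K F) : ∃ D, HasParametrization n D K F := by
  obtain ⟨e⟩ := h
  let L := FractionRing (MvPolynomial (Fin n) K)
  let ι : MvPolynomial (Fin n) K →ₐ[K] L := IsScalarTower.toAlgHom K (MvPolynomial (Fin n) K) L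
  have hι : Function.Injective ι := IsFractionRing.injective _ _
  let π : MvPolynomial (Fin (n + 1)) K →ₐ[K] Coord F := Ideal.Quotient.mkₐ K _
  have hπs : Function.Surjective π := Ideal.Quotient.mkₐ_surjective K _
  let ρ : Coord F →ₐ[K] FractionRing (Coord F) :=
    IsScalarTower.toAlgHom K (Coord F) (FractionRing (Coord F))
  have hρ : Function.Injective ρ := IsFractionRing.injective _ _
  let ψ : Coord F →ₐ[K] L := (e : FractionRing (Coord F) →ₐ[K] L).comp ρ
  have hψ : Function.Injective ψ := fun a b hab => hρ (e.injective hab)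
  let φ : MvPolynomial (Fin (n + 1)) K →ₐ[K] L := ψ.comp π
  obtain ⟨b, hb⟩ := IsLocalization.exist_integer_multiples_of_finite
    (nonZeroDivisors (MvPolynomial (Fin n) K)) (fun j : Fin (n + 1) => φ (X j))
  choose g' hg' using hb
  let g : Fin (n + 2) → MvPolynomial (Fin n) K := Fin.cons b.1 g'
  have hg0 : g 0 ≠ 0 := nonZeroDivisors.ne_zero b.2
  have hl : ∀ j : Fin (n + 1), ι (g j.succ) = ι (g 0) * φ (X j) := by
    intro j
    have h1 := hg' j
    rw [Algebra.smul_def] at h1
    exact h1
  have hφ : (aeval fun j => φ (X j)) = φ := by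
    refine algHom_ext fun i => ?_
    rw [aeval_X]
  obtain ⟨b', hb'⟩ := IsLocalization.exist_integer_multiples_of_finite
    (nonZeroDivisors (Coord F)) (fun i : Fin n => e.symm (ι (X i)))
  choose a' ha' using hb'
  obtain ⟨h0, hh0⟩ := hπs b'.1
  choose h' hh' using fun i => hπs (a' i)
  have hφ0 : φ h0 ≠ 0 := by
    intro h1
    have h2 : ψ b'.1 = 0 := by rw [← hh0]; exact h1
    have h3 : b'.1 = 0 := hψ (h2.trans (map_zero ψ).symm)
    have h4 : (1 : Coord F) = 0 := by
      have h5 := b'.2
      rw [h3] at h5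
      exact (mem_nonZeroDivisors_iff_right.1 h5) 1 (mul_zero _)
    have h6 : (1 : L) = 0 := by rw [← map_one ψ, h4, map_zero]
    exact one_ne_zero h6
  have hφi : ∀ i : Fin n, φ (h' i) = ι (X i) * φ h0 := by
    intro i
    have h1 : φ (h' i) = e (ρ (a' i)) := by rw [← hh']; rfl
    have h2 : ρ (a' i) = ρ b'.1 * e.symm (ι (X i)) := by
      have h3 := ha' i
      rw [Algebra.smul_def] at h3
      exact h3
    have h4 : e (ρ b'.1) = φ h0 := by rw [← hh0]; rfl
    rw [h1, h2, map_mul, h4, AlgEquiv.apply_symm_apply, mul_comm]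
  let hh : Fin (n + 1) → MvPolynomial (Fin (n + 1)) K := Fin.cons h0 h'
  let D : ℕ := ∑ i, (g i).totalDegree + ∑ i, (hh i).totalDegree
  have hDg : ∀ i j, (g i).degreeOf j ≤ D := fun i j =>
    (degreeOf_le_totalDegree _ _).trans ((Finset.single_le_sum
      (f := fun i => (g i).totalDegree) (fun _ _ => Nat.zero_le _) (Finset.mem_univ i)).trans
        (Nat.le_add_right _ _))
  have hDh : ∀ i, (hh i).totalDegree ≤ D := fun i =>
    (Finset.single_le_sum (f := fun i => (hh i).totalDegree) (fun _ _ => Nat.zero_le _)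
      (Finset.mem_univ i)).trans (Nat.le_add_left _ _)
  have hval : ∀ i, ι (bind₁ g (homog D (hh i))) = ι (g 0) ^ D * φ (hh i) := by
    intro i
    rw [bind₁, ← AlgHom.comp_apply, comp_aeval, aeval_homog D (hh i) (hDh i) _ _ hl, hφ]
  have hg0' : ι (g 0) ≠ 0 := fun h1 => hg0 (hι (h1.trans (map_zero ι).symm))
  refine ⟨D, g, fun i => homog D (hh i), hDg, fun i => homog_isHomogeneous D (hh i) (hDh i),
    hg0, hι ?_, fun h1 => ?_, fun i => hι ?_⟩
  · rw [bind₁, ← AlgHom.comp_apply, comp_aeval, aeval_of_isHomogeneous d F hF _ _ hl, hφ,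
      map_zero]
    have h1 : π (dehom F) = 0 :=
      Ideal.Quotient.eq_zero_iff_mem.2 (Ideal.mem_span_singleton_self _)
    rw [show φ (dehom F) = ψ (π (dehom F)) from rfl, h1, map_zero, mul_zero]
  · have h2 := hval 0
    rw [show homog D (hh 0) = (fun i => homog D (hh i)) 0 from rfl, h1, map_zero, eq_comm,
      mul_eq_zero] at h2
    exact h2.elim (pow_ne_zero _ hg0') hφ0
  · change ι (bind₁ g (homog D (hh i.succ))) = ι (X i * bind₁ g (homog D (hh 0)))
    rw [map_mul, hval, hval]
    have h1 : φ (hh i.succ) = ι (X i) * φ (hh 0) := hφi i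
    rw [h1]
    ring

end

end Pool.Agent.Q26.FO
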