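import Pool.Agent.Q26.FO.Law

/-!
# Birational parametrizations of bounded degree of cubic hypersurfaces are first-order
-/

set_option autoImplicit false

namespace Pool.Agent.Q26.FO

open MvPolynomial

/-- the exponents of the monomials of degree `d` in the variables `x_0, …, x_(r-1)` -/
abbrev Idx (r d : ℕ) : Type :=
  {m : Fin r →₀ ℕ // m ∈ Finset.finsuppAntidiag (Finset.univ : Finset (Fin r)) d}

theorem mem_idx {r d : ℕ} (m : Fin r →₀ ℕ) :
    m ∈ Finset.finsuppAntidiag (Finset.univ : Finset (Fin r)) d ↔ m.degree = d := by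
  rw [Finset.mem_finsuppAntidiag, Finsupp.degree_eq_sum]
  simp

/-- the form of degree `d` with coefficients `c` -/
noncomputable def form {R : Type} [CommRing R] {r d : ℕ} (c : Idx r d → R) :
    MvPolynomial (Fin r) R :=
  ∑ m : Idx r d, monomial m.1 (c m)

theorem coeff_form {R : Type} [CommRing R] {r d : ℕ} (c : Idx r d → R) (m : Idx r d) :
    coeff m.1 (form c) = c m := by
  classical
  unfold form
  rw [coeff_sum, Finset.sum_eq_single m]
  · rw [coeff_monomial, if_pos rfl]
  · intro b _ hb
    rw [coeff_monomial, if_neg]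
    exact fun h => hb (Subtype.ext h)
  · intro h
    exact absurd (Finset.mem_univ m) h

theorem form_isHomogeneous {R : Type} [CommRing R] {r d : ℕ} (c : Idx r d → R) :
    (form c).IsHomogeneous d := by
  unfold form
  refine IsHomogeneous.sum _ _ _ fun m _ => ?_
  exact isHomogeneous_monomial _ ((mem_idx m.1).1 m.2)

theorem form_coeff {R : Type} [CommRing R] {r d : ℕ} (F : MvPolynomial (Fin r) R)
    (hF : F.IsHomogeneous d) : form (fun m : Idx r d => coeff m.1 F) = F := by
  classical
  ext m
  by_cases hm : m ∈ Finset.finsuppAntidiag (Finset.univ : Finset (Fin r)) d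
  · exact coeff_form _ ⟨m, hm⟩
  · rw [mem_idx] at hm
    rw [hF.coeff_eq_zero hm, (form_isHomogeneous _).coeff_eq_zero hm]

theorem map_form {R S : Type} [CommRing R] [CommRing S] (f : R →+* S) {r d : ℕ}
    (c : Idx r d → R) : map f (form c) = form (fun m => f (c m)) := by
  unfold form
  rw [map_sum]
  refine Finset.sum_congr rfl fun m _ => ?_
  rw [map_monomial]

/-- the polynomial in `n` variables with exponents at most `D` and coefficients `u` -/
noncomputable def poly {R : Type} [CommRing R] {n D : ℕ} (u : (Fin n → Fin (D + 1)) → R) :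
    MvPolynomial (Fin n) R :=
  ∑ a : Fin n → Fin (D + 1), monomial (Finsupp.equivFunOnFinite.symm fun j => (a j : ℕ)) (u a)

theorem map_poly {R S : Type} [CommRing R] [CommRing S] (f : R →+* S) {n D : ℕ}
    (u : (Fin n → Fin (D + 1)) → R) : map f (poly u) = poly (fun a => f (u a)) := by
  unfold poly
  rw [map_sum]
  refine Finset.sum_congr rfl fun m _ => ?_
  rw [map_monomial]

theorem expo_injective {n D : ℕ} : Function.Injective
    (fun a : Fin n → Fin (D + 1) =>
      (Finsupp.equivFunOnFinite.symm fun j => (a j : ℕ) : Fin n →₀ ℕ)) := by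
  intro a b hab
  have h1 := Finsupp.equivFunOnFinite.symm.injective hab
  funext j
  exact Fin.ext (congrFun h1 j)

theorem coeff_poly {R : Type} [CommRing R] {n D : ℕ} (u : (Fin n → Fin (D + 1)) → R)
    (m : Fin n →₀ ℕ) : coeff m (poly u) =
      if h : ∀ j, m j < D + 1 then u fun j => ⟨m j, h j⟩ else 0 := by
  classical
  unfold poly
  rw [coeff_sum]
  split_ifs with h
  · rw [Finset.sum_eq_single fun j => ⟨m j, h j⟩]
    · rw [coeff_monomial, if_pos]
      ext j
      simp
    · intro b _ hb
      rw [coeff_monomial, if_neg]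
      intro h1
      refine hb (funext fun j => Fin.ext ?_)
      have h2 := DFunLike.congr_fun h1 j
      simpa using h2
    · intro h1
      exact absurd (Finset.mem_univ _) h1
  · refine Finset.sum_eq_zero fun b _ => ?_
    rw [coeff_monomial, if_neg]
    intro h1
    refine h fun j => ?_
    have h2 := DFunLike.congr_fun h1 j
    rw [← h2]
    exact (b j).2

theorem poly_degreeOf {R : Type} [CommRing R] {n D : ℕ} (u : (Fin n → Fin (D + 1)) → R)
    (j : Fin n) : (poly u).degreeOf j ≤ D := by
  rw [degreeOf_le_iff]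
  intro m hm
  rw [mem_support_iff, coeff_poly] at hm
  by_contra h1
  rw [dif_neg] at hm
  · exact hm rfl
  · intro h2
    exact h1 (Nat.lt_succ_iff.1 (h2 j))

theorem poly_coeff {R : Type} [CommRing R] {n D : ℕ} (g : MvPolynomial (Fin n) R)
    (hg : ∀ j, g.degreeOf j ≤ D) : poly (D := D) (fun a : Fin n → Fin (D + 1) =>
      coeff (Finsupp.equivFunOnFinite.symm fun j => (a j : ℕ)) g) = g := by
  ext m
  rw [coeff_poly]
  split_ifs with h
  · congr 1
    ext j
    simp
  · by_contra h1
    refine h fun j => ?_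
    have h2 : m ∈ g.support := mem_support_iff.2 (Ne.symm h1)
    exact Nat.lt_succ_iff.2 ((degreeOf_le_iff.1 (hg j)) m h2)

/-- The hypersurface `F = 0` of dimension `n` has a birational parametrization of degree at most
`D`: there are polynomials `g 0, …, g (n + 1)` in the parameters `t_1, …, t_n`, of degree at most `D`
in each of them, with `F (g 0, …, g (n + 1)) = 0` and `g 0 ≠ 0`, and forms `H 0, …, H n` of
degree `D` in `n + 2` variables, such that `H i (g 0, …, g (n + 1)) = t_i * H 0 (g 0, …, g (n + 1))`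
and `H 0 (g 0, …, g (n + 1)) ≠ 0`. -/
def HasParametrization (n D : ℕ) (K : Type) [Field K] (F : MvPolynomial (Fin (n + 2)) K) : Prop :=
  ∃ (g : Fin (n + 2) → MvPolynomial (Fin n) K) (H : Fin (n + 1) → MvPolynomial (Fin (n + 2)) K),
    (∀ i j, (g i).degreeOf j ≤ D) ∧ (∀ i, (H i).IsHomogeneous D) ∧ g 0 ≠ 0 ∧
    bind₁ g F = 0 ∧ bind₁ g (H 0) ≠ 0 ∧
    ∀ i : Fin n, bind₁ g (H i.succ) = X i * bind₁ g (H 0)

section definability

variable {γ σ : Type}

/-- the evaluation of the coefficients at `z` -/
noncomputable def ev {K : Type} [Field K] (z : γ → K) : MvPolynomial γ ℤ →+* K :=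
  (aeval z : MvPolynomial γ ℤ →ₐ[ℤ] K).toRingHom

theorem ev_X {K : Type} [Field K] (z : γ → K) (i : γ) : ev z (X i) = z i := by
  simp [ev]

theorem isFirstOrder_map (P : MvPolynomial σ (MvPolynomial γ ℤ)) :
    IsFirstOrder (fun K _ (z : γ → K) => map (ev z) P = 0) := by
  refine (isFirstOrder_forall_mem P.support
    (fun m K _ (z : γ → K) => aeval z (coeff m P) = 0)
    fun m _ => isFirstOrder_eval _).congr fun K _ _ z => ?_
  constructor
  · intro h
    ext m
    rw [coeff_map, coeff_zero]
    by_cases hm : m ∈ P.support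
    · exact h m hm
    · rw [notMem_support_iff.1 hm, map_zero]
  · intro h m _
    have h1 : coeff m (map (ev z) P) = 0 := by rw [h, coeff_zero]
    rwa [coeff_map] at h1

end definability

/-- the index set of the coefficients of a parametrization and of its inverse -/
abbrev ParIdx (n D : ℕ) : Type :=
  (Fin (n + 2) × (Fin n → Fin (D + 1))) ⊕ (Fin (n + 1) × Idx (n + 2) D)

theorem isFirstOrder_hasParametrization (n d D : ℕ) :
    IsFirstOrder (fun K _ (c : Idx (n + 2) d → K) => HasParametrization n D K (form c)) := by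
  let A := MvPolynomial (Idx (n + 2) d ⊕ ParIdx n D) ℤ
  let gF : MvPolynomial (Fin (n + 2)) A := form fun m => X (Sum.inl m)
  let gG : Fin (n + 2) → MvPolynomial (Fin n) A := fun i =>
    poly fun a : Fin n → Fin (D + 1) => X (Sum.inr (Sum.inl (i, a)))
  let gH : Fin (n + 1) → MvPolynomial (Fin (n + 2)) A := fun i =>
    form fun m : Idx (n + 2) D => X (Sum.inr (Sum.inr (i, m)))
  have h1 : IsFirstOrder (fun K _ (z : Idx (n + 2) d ⊕ ParIdx n D → K) =>
      ¬ map (ev z) (gG 0) = 0 ∧ map (ev z) (bind₁ gG gF) = 0 ∧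
      ¬ map (ev z) (bind₁ gG (gH 0)) = 0 ∧
      ∀ i : Fin n, map (ev z) (bind₁ gG (gH i.succ) - X i * bind₁ gG (gH 0)) = 0) :=
    (isFirstOrder_map _).not.and ((isFirstOrder_map _).and ((isFirstOrder_map _).not.and
      (isFirstOrder_forall _ fun i => isFirstOrder_map _)))
  refine h1.ex.congr fun K _ _ c => ?_
  have hF : ∀ u : ParIdx n D → K, map (ev (Sum.elim c u)) gF = form c := by
    intro u
    simp only [gF]
    rw [map_form]
    congr 1
    funext m
    rw [ev_X]
    rfl
  have hG : ∀ (u : ParIdx n D → K) i, map (ev (Sum.elim c u)) (gG i) =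
      poly fun a : Fin n → Fin (D + 1) => u (Sum.inl (i, a)) := by
    intro u i
    simp only [gG]
    rw [map_poly]
    congr 1
    funext m
    rw [ev_X]
    rfl
  have hH : ∀ (u : ParIdx n D → K) i, map (ev (Sum.elim c u)) (gH i) =
      form fun m : Idx (n + 2) D => u (Sum.inr (i, m)) := by
    intro u i
    simp only [gH]
    rw [map_form]
    congr 1
    funext m
    rw [ev_X]
    rfl
  have hGf : ∀ u : ParIdx n D → K, (fun i => map (ev (Sum.elim c u)) (gG i)) =
      fun i => poly fun a : Fin n → Fin (D + 1) => u (Sum.inl (i, a)) :=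
    fun u => funext fun i => hG u i
  constructor
  · rintro ⟨u, h2, h3, h4, h5⟩
    refine ⟨fun i => poly fun a : Fin n → Fin (D + 1) => u (Sum.inl (i, a)),
      fun i => form fun m : Idx (n + 2) D => u (Sum.inr (i, m)), fun i j => poly_degreeOf _ j,
      fun i => form_isHomogeneous _, ?_, ?_, ?_, fun i => ?_⟩
    · intro h6
      exact h2 ((hG u 0).trans h6)
    · rw [map_bind₁, hGf, hF] at h3
      exact h3
    · rw [map_bind₁, hGf, hH] at h4
      exact h4
    · have h6 := h5 i
      rw [map_sub, map_mul, map_X, map_bind₁, map_bind₁, hGf, hH, hH, sub_eq_zero] at h6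
      exact h6
  · rintro ⟨g, H, hg, hH', h2, h3, h4, h5⟩
    let u : ParIdx n D → K := Sum.elim
      (fun q => coeff (Finsupp.equivFunOnFinite.symm fun j => (q.2 j : ℕ)) (g q.1))
      (fun q => coeff q.2.1 (H q.1))
    have hg1 : ∀ i, (poly fun a : Fin n → Fin (D + 1) => u (Sum.inl (i, a))) = g i :=
      fun i => poly_coeff (g i) (hg i)
    have hg2 : (fun i => poly fun a : Fin n → Fin (D + 1) => u (Sum.inl (i, a))) = g :=
      funext hg1
    have hH1 : ∀ i, (form fun m : Idx (n + 2) D => u (Sum.inr (i, m))) = H i :=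
      fun i => form_coeff (H i) (hH' i)
    refine ⟨u, ?_, ?_, ?_, fun i => ?_⟩
    · rw [hG, hg1]
      exact h2
    · rw [map_bind₁, hGf, hF, hg2]
      exact h3
    · rw [map_bind₁, hGf, hH, hg2, hH1]
      exact h4
    · rw [map_sub, map_mul, map_X, map_bind₁, map_bind₁, hGf, hH, hH, hg2, hH1, hH1, sub_eq_zero]
      exact h5 i

end Pool.Agent.Q26.FO
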