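import Pool.Agent.Q26.FO.Baire

/-!
# Birational parametrizations in families
-/

set_option autoImplicit false

namespace Pool.Agent.Q26.FO

open MvPolynomial

variable {α : Type} {r m : ℕ}

/-- The projective variety `F 0 = … = F (r - 1) = 0` in the variables `x_0, …, x_m` has a birational
parametrization of degree at most `D` of its chart `x_0 ≠ 0` by `n` parameters: there are
polynomials `g 0, …, g m` in the parameters `t_1, …, t_n`, of degree at most `D` in each of them,
with `F i (g 0, …, g m) = 0` for all `i` and `g 0 ≠ 0`, and forms `H 0, …, H n` of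
degree `D` in `m + 1` variables, such that `H i (g 0, …, g m) = t_i * H 0 (g 0, …, g m)`
for `1 ≤ i ≤ n` and `H 0 (g 0, …, g m) ≠ 0`. -/
def HasPar (n D : ℕ) (K : Type) [Field K] (F : Fin r → MvPolynomial (Fin (m + 1)) K) : Prop :=
  ∃ (g : Fin (m + 1) → MvPolynomial (Fin n) K) (H : Fin (n + 1) → MvPolynomial (Fin (m + 1)) K),
    (∀ i j, (g i).degreeOf j ≤ D) ∧ (∀ i, (H i).IsHomogeneous D) ∧ g 0 ≠ 0 ∧
    (∀ i, bind₁ g (F i) = 0) ∧ bind₁ g (H 0) ≠ 0 ∧
    ∀ i : Fin n, bind₁ g (H i.succ) = X i * bind₁ g (H 0)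

/-- the index set of the coefficients of a parametrization and of its inverse -/
abbrev ParIdx' (n m D : ℕ) : Type :=
  (Fin (m + 1) × (Fin n → Fin (D + 1))) ⊕ (Fin (n + 1) × Idx (m + 1) D)

theorem isFirstOrder_hasPar (n D : ℕ)
    (F : Fin r → MvPolynomial (Fin (m + 1)) (MvPolynomial α ℤ)) :
    IsFirstOrder (fun K _ (t : α → K) => HasPar n D K fun i => map (ev t) (F i)) := by
  let A := MvPolynomial (α ⊕ ParIdx' n m D) ℤ
  let gF : Fin r → MvPolynomial (Fin (m + 1)) A := fun i =>
    map (rename (R := ℤ) (Sum.inl : α → α ⊕ ParIdx' n m D)).toRingHom (F i)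
  let gG : Fin (m + 1) → MvPolynomial (Fin n) A := fun i =>
    poly fun a : Fin n → Fin (D + 1) => X (Sum.inr (Sum.inl (i, a)))
  let gH : Fin (n + 1) → MvPolynomial (Fin (m + 1)) A := fun i =>
    form fun m : Idx (m + 1) D => X (Sum.inr (Sum.inr (i, m)))
  have h1 : IsFirstOrder (fun K _ (z : α ⊕ ParIdx' n m D → K) =>
      ¬ map (ev z) (gG 0) = 0 ∧ (∀ i, map (ev z) (bind₁ gG (gF i)) = 0) ∧
      ¬ map (ev z) (bind₁ gG (gH 0)) = 0 ∧
      ∀ i : Fin n, map (ev z) (bind₁ gG (gH i.succ) - X i * bind₁ gG (gH 0)) = 0) :=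
    (isFirstOrder_map _).not.and ((isFirstOrder_forall _ fun i => isFirstOrder_map _).and
      ((isFirstOrder_map _).not.and (isFirstOrder_forall _ fun i => isFirstOrder_map _)))
  refine h1.ex.congr fun K _ _ t => ?_
  have hF : ∀ (u : ParIdx' n m D → K) i, map (ev (Sum.elim t u)) (gF i) = map (ev t) (F i) := by
    intro u i
    simp only [gF]
    rw [map_map]
    have h2 : (ev (Sum.elim t u)).comp
        (rename (R := ℤ) (Sum.inl : α → α ⊕ ParIdx' n m D)).toRingHom = ev t := by
      refine MvPolynomial.ringHom_ext (fun a => by simp) (fun j => ?_)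
      rw [RingHom.comp_apply, ev_X]
      change ev _ (rename _ (X j)) = _
      rw [rename_X, ev_X]
      rfl
    rw [h2]
  have hG : ∀ (u : ParIdx' n m D → K) i, map (ev (Sum.elim t u)) (gG i) =
      poly fun a : Fin n → Fin (D + 1) => u (Sum.inl (i, a)) := by
    intro u i
    simp only [gG]
    rw [map_poly]
    congr 1
    funext m
    rw [ev_X]
    rfl
  have hH : ∀ (u : ParIdx' n m D → K) i, map (ev (Sum.elim t u)) (gH i) =
      form fun m : Idx (m + 1) D => u (Sum.inr (i, m)) := by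
    intro u i
    simp only [gH]
    rw [map_form]
    congr 1
    funext m
    rw [ev_X]
    rfl
  have hGf : ∀ u : ParIdx' n m D → K, (fun i => map (ev (Sum.elim t u)) (gG i)) =
      fun i => poly fun a : Fin n → Fin (D + 1) => u (Sum.inl (i, a)) :=
    fun u => funext fun i => hG u i
  constructor
  · rintro ⟨u, h2, h3, h4, h5⟩
    refine ⟨fun i => poly fun a : Fin n → Fin (D + 1) => u (Sum.inl (i, a)),
      fun i => form fun m : Idx (m + 1) D => u (Sum.inr (i, m)), fun i j => poly_degreeOf _ j,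
      fun i => form_isHomogeneous _, ?_, fun i => ?_, ?_, fun i => ?_⟩
    · intro h6
      exact h2 ((hG u 0).trans h6)
    · have h3 := h3 i
      rw [map_bind₁, hGf, hF] at h3
      exact h3
    · rw [map_bind₁, hGf, hH] at h4
      exact h4
    · have h6 := h5 i
      rw [map_sub, map_mul, map_X, map_bind₁, map_bind₁, hGf, hH, hH, sub_eq_zero] at h6
      exact h6
  · rintro ⟨g, H, hg, hH', h2, h3, h4, h5⟩
    let u : ParIdx' n m D → K := Sum.elim
      (fun q => coeff (Finsupp.equivFunOnFinite.symm fun j => (q.2 j : ℕ)) (g q.1))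
      (fun q => coeff q.2.1 (H q.1))
    have hg1 : ∀ i, (poly fun a : Fin n → Fin (D + 1) => u (Sum.inl (i, a))) = g i :=
      fun i => poly_coeff (g i) (hg i)
    have hg2 : (fun i => poly fun a : Fin n → Fin (D + 1) => u (Sum.inl (i, a))) = g :=
      funext hg1
    have hH1 : ∀ i, (form fun m : Idx (m + 1) D => u (Sum.inr (i, m))) = H i :=
      fun i => form_coeff (H i) (hH' i)
    refine ⟨u, ?_, fun i => ?_, ?_, fun i => ?_⟩
    · rw [hG, hg1]
      exact h2
    · rw [map_bind₁, hGf, hF, hg2]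
      exact h3 i
    · rw [map_bind₁, hGf, hH, hg2, hH1]
      exact h4
    · rw [map_sub, map_mul, map_X, map_bind₁, map_bind₁, hGf, hH, hH, hg2, hH1, hH1, sub_eq_zero]
      exact h5 i

section

variable {K : Type} [Field K] {n : ℕ}

/-- A birational parametrization of the affine variety `f 0 = … = f (r - 1) = 0` by `n` parameters:
rational functions `y j` with `f i (y) = 0`, and polynomials `h 0, …, h n` with `h 0 (y) ≠ 0` and
`h i (y) / h 0 (y) = t_i`. -/
def Parametrized (n : ℕ) (K : Type) [Field K] (f : Fin r → MvPolynomial (Fin m) K) : Prop :=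
  ∃ (y : Fin m → FractionRing (MvPolynomial (Fin n) K)) (h : Fin (n + 1) → MvPolynomial (Fin m) K),
    (∀ i, aeval y (f i) = 0) ∧ aeval y (h 0) ≠ 0 ∧
    ∀ i : Fin n, aeval y (h i.succ) =
      algebraMap (MvPolynomial (Fin n) K) _ (X i) * aeval y (h 0)

theorem HasPar.parametrized {D : ℕ} {F : Fin r → MvPolynomial (Fin (m + 1)) K} (d : Fin r → ℕ)
    (hF : ∀ i, (F i).IsHomogeneous (d i)) (h : HasPar n D K F) :
    Parametrized n K fun i => dehom (F i) := by
  obtain ⟨g, H, -, hH, hg0, hF0, hH0, hHi⟩ := h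
  let L := FractionRing (MvPolynomial (Fin n) K)
  let ι : MvPolynomial (Fin n) K →ₐ[K] L := IsScalarTower.toAlgHom K (MvPolynomial (Fin n) K) L
  have hι : Function.Injective ι := IsFractionRing.injective _ _
  have hg0' : ι (g 0) ≠ 0 := fun h1 => hg0 (hι (h1.trans (map_zero ι).symm))
  let l : Fin m → L := fun j => ι (g j.succ) / ι (g 0)
  have hl : ∀ j : Fin m, ι (g j.succ) = ι (g 0) * l j := fun j =>
    (mul_div_cancel₀ _ hg0').symm
  have hval : ∀ (e : ℕ) (G : MvPolynomial (Fin (m + 1)) K), G.IsHomogeneous e →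
      ι (bind₁ g G) = ι (g 0) ^ e * aeval l (dehom G) := by
    intro e G hG
    rw [← aeval_of_isHomogeneous e G hG (fun i => ι (g i)) l hl, bind₁, ← AlgHom.comp_apply,
      comp_aeval]
  refine ⟨l, fun i => dehom (H i), fun i => ?_, fun h1 => ?_, fun i => ?_⟩
  · have h1 := hval (d i) _ (hF i)
    rw [hF0, map_zero, eq_comm, mul_eq_zero] at h1
    exact h1.resolve_left (pow_ne_zero _ hg0')
  · refine hH0 (hι ?_)
    rw [hval D _ (hH 0), map_zero, h1, mul_zero]
  · have h1 := congrArg ι (hHi i)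
    rw [map_mul, hval D _ (hH _), hval D _ (hH _)] at h1
    have h2 := pow_ne_zero D hg0'
    refine mul_left_cancel₀ h2 ?_
    rw [h1]
    change ι (X i) * _ = _ * (ι (X i) * _)
    ring

theorem Parametrized.hasPar {F : Fin r → MvPolynomial (Fin (m + 1)) K} (d : Fin r → ℕ)
    (hF : ∀ i, (F i).IsHomogeneous (d i)) (h : Parametrized n K fun i => dehom (F i)) :
    ∃ D, HasPar n D K F := by
  obtain ⟨y, hh, hy, hh0, hhi⟩ := h
  let L := FractionRing (MvPolynomial (Fin n) K)
  let ι : MvPolynomial (Fin n) K →ₐ[K] L := IsScalarTower.toAlgHom K (MvPolynomial (Fin n) K) L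
  have hι : Function.Injective ι := IsFractionRing.injective _ _
  obtain ⟨b, hb⟩ := IsLocalization.exist_integer_multiples_of_finite
    (nonZeroDivisors (MvPolynomial (Fin n) K)) y
  choose g' hg' using hb
  let g : Fin (m + 1) → MvPolynomial (Fin n) K := Fin.cons b.1 g'
  have hg0 : g 0 ≠ 0 := nonZeroDivisors.ne_zero b.2
  have hl : ∀ j : Fin m, ι (g j.succ) = ι (g 0) * y j := by
    intro j
    have h1 := hg' j
    rw [Algebra.smul_def] at h1
    exact h1
  let D : ℕ := ∑ i, (g i).totalDegree + ∑ i, (hh i).totalDegree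
  have hDg : ∀ i j, (g i).degreeOf j ≤ D := fun i j =>
    (degreeOf_le_totalDegree _ _).trans ((Finset.single_le_sum
      (f := fun i => (g i).totalDegree) (fun _ _ => Nat.zero_le _) (Finset.mem_univ i)).trans
        (Nat.le_add_right _ _))
  have hDh : ∀ i, (hh i).totalDegree ≤ D := fun i =>
    (Finset.single_le_sum (f := fun i => (hh i).totalDegree) (fun _ _ => Nat.zero_le _)
      (Finset.mem_univ i)).trans (Nat.le_add_left _ _)
  have hval : ∀ i, ι (bind₁ g (homog D (hh i))) = ι (g 0) ^ D * aeval y (hh i) := by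
    intro i
    rw [bind₁, ← AlgHom.comp_apply, comp_aeval, aeval_homog D (hh i) (hDh i) _ _ hl]
  have hg0' : ι (g 0) ≠ 0 := fun h1 => hg0 (hι (h1.trans (map_zero ι).symm))
  refine ⟨D, g, fun i => homog D (hh i), hDg, fun i => homog_isHomogeneous D (hh i) (hDh i),
    hg0, fun i => hι ?_, fun h1 => ?_, fun i => hι ?_⟩
  · rw [bind₁, ← AlgHom.comp_apply, comp_aeval, aeval_of_isHomogeneous (d i) (F i) (hF i) _ _ hl,
      hy i, map_zero, mul_zero]
  · have h2 := hval 0
    rw [show homog D (hh 0) = (fun i => homog D (hh i)) 0 from rfl, h1, map_zero, eq_comm,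
      mul_eq_zero] at h2
    exact h2.elim (pow_ne_zero _ hg0') hh0
  · change ι (bind₁ g (homog D (hh i.succ))) = ι (X i * bind₁ g (homog D (hh 0)))
    rw [map_mul, hval, hval]
    have h1 : aeval y (hh i.succ) = ι (X i) * aeval y (hh 0) := hhi i
    rw [h1]
    ring

/-- a rational variety is parametrized -/
theorem parametrized_of_equiv {J : Ideal (MvPolynomial (Fin m) K)}
    (f : Fin r → MvPolynomial (Fin m) K) (hf : ∀ i, f i ∈ J)
    (e : FractionRing (MvPolynomial (Fin m) K ⧸ J) ≃ₐ[K] FractionRing (MvPolynomial (Fin n) K)) :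
    Parametrized n K f := by
  let L := FractionRing (MvPolynomial (Fin n) K)
  let ι : MvPolynomial (Fin n) K →ₐ[K] L := IsScalarTower.toAlgHom K (MvPolynomial (Fin n) K) L
  let π : MvPolynomial (Fin m) K →ₐ[K] MvPolynomial (Fin m) K ⧸ J := Ideal.Quotient.mkₐ K _
  have hπs : Function.Surjective π := Ideal.Quotient.mkₐ_surjective K _
  let ρ : (MvPolynomial (Fin m) K ⧸ J) →ₐ[K] FractionRing (MvPolynomial (Fin m) K ⧸ J) :=
    IsScalarTower.toAlgHom K _ _
  have hρ : Function.Injective ρ := IsFractionRing.injective _ _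
  let ψ : (MvPolynomial (Fin m) K ⧸ J) →ₐ[K] L :=
    (e : FractionRing (MvPolynomial (Fin m) K ⧸ J) →ₐ[K] L).comp ρ
  have hψ : Function.Injective ψ := fun a b hab => hρ (e.injective hab)
  let φ : MvPolynomial (Fin m) K →ₐ[K] L := ψ.comp π
  have hφ : (aeval fun j => φ (X j)) = φ := by
    refine algHom_ext fun i => ?_
    rw [aeval_X]
  obtain ⟨b', hb'⟩ := IsLocalization.exist_integer_multiples_of_finite
    (nonZeroDivisors (MvPolynomial (Fin m) K ⧸ J)) (fun i : Fin n => e.symm (ι (X i)))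
  choose a' ha' using hb'
  obtain ⟨h0, hh0⟩ := hπs b'.1
  choose h' hh' using fun i => hπs (a' i)
  have hφ0 : φ h0 ≠ 0 := by
    intro h1
    have h2 : ψ b'.1 = 0 := by rw [← hh0]; exact h1
    have h3 : b'.1 = 0 := hψ (h2.trans (map_zero ψ).symm)
    have h4 : (1 : MvPolynomial (Fin m) K ⧸ J) = 0 := by
      have h5 := b'.2
      rw [h3] at h5
      exact (mem_nonZeroDivisors_iff_right.1 h5) 1 (mul_zero _)
    have h6 : (1 : L) = 0 := by rw [← map_one ψ, h4, map_zero]
    exact one_ne_zero h6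
  have hφi : ∀ i : Fin n, φ (h' i) = ι (X i) * φ h0 := by
    intro i
    have h1 : φ (h' i) = e (ρ (a' i)) := by rw [← hh']; rfl
    have h2 : ρ (a' i) = ρ b'.1 * e.symm (ι (X i)) := by
      have h3 := ha' i
      rw [Algebra.smul_def] at h3
      exact h3
    have h4 : e (ρ b'.1) = φ h0 := by rw [← hh0]; rfl
    rw [h1, h2, map_mul, h4, AlgEquiv.apply_symm_apply, mul_comm]
  refine ⟨fun j => φ (X j), Fin.cons h0 h', fun i => ?_, ?_, fun i => ?_⟩
  · rw [hφ]
    have h1 : π (f i) = 0 := Ideal.Quotient.eq_zero_iff_mem.2 (hf i)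
    rw [show φ (f i) = ψ (π (f i)) from rfl, h1, map_zero]
  · rw [hφ]
    exact hφ0
  · rw [hφ]
    exact hφi i

end

/-- The very general member of a family is not rational, if and only if for every `D` the members
with a parametrization of degree at most `D` are not Zariski dense. -/
theorem veryGeneral_family [Finite α] (n : ℕ)
    (F : Fin r → MvPolynomial (Fin (m + 1)) (MvPolynomial α ℤ)) (d : Fin r → ℕ)
    (hF : ∀ (t : α → ℂ) i, (map (ev t) (F i)).IsHomogeneous (d i)) :
    (∃ P : ℕ → MvPolynomial α ℂ, (∀ k, P k ≠ 0) ∧ ∀ t : α → ℂ, (∀ k, eval t (P k) ≠ 0) →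
      ¬ Parametrized n ℂ fun i => dehom (map (ev t) (F i))) ↔
    ∀ D, NotDense (fun K _ (t : α → K) => HasPar n D K fun i => map (ev t) (F i)) ℂ := by
  constructor
  · rintro ⟨P, hP, h⟩ D
    by_contra hD
    obtain ⟨Ψ, hΨ, h1, -⟩ := ((isFirstOrder_hasPar n D F).dense_law.out 0 1).1 hD
    obtain ⟨t, -, ht⟩ := exists_avoiding
      (fun k : Option ℕ => k.elim (map (Int.castRingHom ℂ) Ψ) P)
      (fun k => by
        cases k with
        | none => exact charZero_map_ne_zero ℂ Ψ hΨ
        | some k => exact hP k) isOpen_univ ⟨fun _ => 0, Set.mem_univ _⟩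
    refine h t (fun k => ht (some k)) (HasPar.parametrized d (hF t) (D := D) (h1 ℂ t ?_))
    rw [aeval_eq_eval_map]
    exact ht none
  · intro h
    choose Ψ hΨ hΨ' using h
    refine ⟨Ψ, hΨ, fun t ht hpar => ?_⟩
    obtain ⟨D, hD⟩ := Parametrized.hasPar d (hF t) hpar
    exact ht D (hΨ' D t hD)

end Pool.Agent.Q26.FO
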