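import Pool.Agent.Q26.FO.Basic

/-!
# First-order properties at generic points
-/

set_option autoImplicit false

namespace Pool.Agent.Q26.FO

open Cardinal

/-- an isomorphism between two algebraically closed fields which maps a transcendence basis to a
transcendence basis -/
theorem exists_ringEquiv {ι κ : Type} (v : ι → ℂ) (w : κ → ℂ) (e : ι ≃ κ)
    (hv : IsTranscendenceBasis ℤ v) (hw : IsTranscendenceBasis ℤ w) :
    ∃ σ : ℂ ≃+* ℂ, ∀ i, σ (v i) = w (e i) := by
  let _ := IsAlgClosed.isAlgClosure_of_transcendence_basis v hv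
  let _ := IsAlgClosed.isAlgClosure_of_transcendence_basis w hw
  let f : Algebra.adjoin ℤ (Set.range v) ≃+* Algebra.adjoin ℤ (Set.range w) :=
    hv.1.aevalEquiv.symm.toRingEquiv.trans
      ((MvPolynomial.renameEquiv ℤ e).toRingEquiv.trans hw.1.aevalEquiv.toRingEquiv)
  refine ⟨IsAlgClosure.equivOfEquiv ℂ ℂ f, fun i => ?_⟩
  have h1 : v i = algebraMap (Algebra.adjoin ℤ (Set.range v)) ℂ
      (hv.1.aevalEquiv (MvPolynomial.X i)) := by
    rw [AlgebraicIndependent.algebraMap_aevalEquiv, MvPolynomial.aeval_X]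
  have h2 : f (hv.1.aevalEquiv (MvPolynomial.X i)) = hw.1.aevalEquiv (MvPolynomial.X (e i)) := by
    simp [f]
  conv_lhs => rw [h1]
  rw [IsAlgClosure.equivOfEquiv_algebraMap, h2, AlgebraicIndependent.algebraMap_aevalEquiv,
    MvPolynomial.aeval_X]

/-- the group of automorphisms of `ℂ` acts transitively on generic points -/
theorem exists_automorphism {α : Type} [Finite α] (x y : α → ℂ) (hx : AlgebraicIndependent ℤ x)
    (hy : AlgebraicIndependent ℤ y) : ∃ σ : ℂ ≃+* ℂ, σ ∘ x = y := by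
  obtain ⟨s, hxs, hs⟩ := exists_isTranscendenceBasis_superset hx.coe_range
  obtain ⟨t, hyt, ht⟩ := exists_isTranscendenceBasis_superset hy.coe_range
  have hs1 : #s = 𝔠 := by
    rw [← mk_complex]
    exact (IsAlgClosed.cardinal_eq_cardinal_transcendence_basis_of_aleph0_lt' _ hs
      (le_of_eq mk_int) (by rw [mk_complex]; exact aleph0_lt_continuum)).symm
  have ht1 : #t = 𝔠 := by
    rw [← mk_complex]
    exact (IsAlgClosed.cardinal_eq_cardinal_transcendence_basis_of_aleph0_lt' _ ht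
      (le_of_eq mk_int) (by rw [mk_complex]; exact aleph0_lt_continuum)).symm
  let S : Set s := {b | (b : ℂ) ∈ Set.range x}
  have hS : S.Finite := (Set.finite_range x).preimage Subtype.val_injective.injOn
  choose g hg using fun b : S => (b.2 : ((b : s) : ℂ) ∈ Set.range x)
  have hyt' : ∀ i, y i ∈ t := fun i => hyt ⟨i, rfl⟩
  let f : S ↪ t := ⟨fun b => ⟨y (g b), hyt' _⟩, by
    intro a b hab
    have h1 : y (g a) = y (g b) := congrArg Subtype.val hab
    have h2 : g a = g b := hy.injective h1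
    apply Subtype.ext
    apply Subtype.ext
    rw [← hg a, ← hg b, h2]⟩
  obtain ⟨e, he⟩ := extend_function_of_lt f (lt_of_lt_of_le (b := ℵ₀)
    (Cardinal.lt_aleph0_iff_finite.2 hS) (by rw [hs1]; exact aleph0_le_continuum))
    (Cardinal.eq.1 (hs1.trans ht1.symm))
  obtain ⟨σ, hσ⟩ := exists_ringEquiv _ _ e hs ht
  refine ⟨σ, funext fun i => ?_⟩
  have h1 : x i ∈ s := hxs ⟨i, rfl⟩
  let b : S := ⟨⟨x i, h1⟩, ⟨i, rfl⟩⟩
  have h2 := hσ b
  have h3 : g b = i := hx.injective (hg b)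
  rw [he b] at h2
  change σ (x i) = y (g b) at h2
  rw [h3] at h2
  exact h2

/-- **the generic point decides**: a first-order property holds on a nonempty open subset defined by a
polynomial with integral coefficients, or its negation does -/
theorem IsFirstOrder.dichotomy {α : Type} [Finite α] {R : Pred α} (hR : IsFirstOrder R) :
    (∃ Ψ : MvPolynomial α ℤ, Ψ ≠ 0 ∧ ∀ x : α → ℂ, MvPolynomial.aeval x Ψ ≠ 0 → R ℂ x) ∨
    (∃ Ψ : MvPolynomial α ℤ, Ψ ≠ 0 ∧ ∀ x : α → ℂ, MvPolynomial.aeval x Ψ ≠ 0 → ¬ R ℂ x) := by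
  classical
  have key : ∀ T : Pred α, IsFirstOrder T →
      (¬ ∃ Ψ : MvPolynomial α ℤ, Ψ ≠ 0 ∧ ∀ x : α → ℂ, MvPolynomial.aeval x Ψ ≠ 0 → T ℂ x) →
      ∃ x : α → ℂ, AlgebraicIndependent ℤ x ∧ ¬ T ℂ x := by
    intro T hT h
    have : Countable {Ψ : MvPolynomial α ℤ // Ψ ≠ 0} := by
      have : Countable (MvPolynomial α ℤ) := by
        refine Cardinal.mk_le_aleph0_iff.1 ?_
        refine MvPolynomial.cardinalMk_le_max.trans ?_
        simp
      infer_instance
    have : Nonempty {Ψ : MvPolynomial α ℤ // Ψ ≠ 0} := ⟨⟨1, one_ne_zero⟩⟩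
    obtain ⟨F, hF⟩ := exists_surjective_nat {Ψ : MvPolynomial α ℤ // Ψ ≠ 0}
    let P : ℕ → Pred α := fun n K _ x =>
      ¬ MvPolynomial.aeval x (∏ i ∈ Finset.range (n + 1), (F i : MvPolynomial α ℤ)) = 0 ∧
        ¬ T K x
    obtain ⟨x, hx⟩ := saturated P (fun n => (isFirstOrder_eval _).not.and hT.not) (by
      rintro m n hmn K _ x ⟨h1, h2⟩
      refine ⟨fun h3 => h1 ?_, h2⟩
      rw [map_prod] at h3 ⊢
      obtain ⟨i, hi, h4⟩ := Finset.prod_eq_zero_iff.1 h3
      exact Finset.prod_eq_zero (Finset.mem_range.2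
        (lt_of_lt_of_le (Finset.mem_range.1 hi) (Nat.succ_le_succ hmn))) h4) (by
      intro n
      by_contra h1
      refine h ⟨∏ i ∈ Finset.range (n + 1), (F i : MvPolynomial α ℤ),
        Finset.prod_ne_zero_iff.2 fun i _ => (F i).2, fun x hx => ?_⟩
      by_contra h2
      exact h1 ⟨x, hx, h2⟩)
    refine ⟨x, ?_, (hx 0).2⟩
    rw [algebraicIndependent_iff]
    intro Ψ hΨ
    by_contra h1
    obtain ⟨n, hn⟩ := hF ⟨Ψ, h1⟩
    refine (hx n).1 ?_
    rw [map_prod]
    refine Finset.prod_eq_zero (Finset.mem_range.2 (Nat.lt_succ_self n)) ?_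
    rw [hn]
    exact hΨ
  by_contra hcon
  rw [not_or] at hcon
  obtain ⟨x, hx, hRx⟩ := key R hR hcon.1
  obtain ⟨y, hy, hRy⟩ := key (fun K _ x => ¬ R K x) hR.not hcon.2
  obtain ⟨σ, hσ⟩ := exists_automorphism x y hx hy
  have h1 := hR.iff_of_ringEquiv σ x
  rw [hσ] at h1
  exact hRy fun h2 => hRx (h1.2 h2)

end Pool.Agent.Q26.FO
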