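import Pool.Agent.Q26.FO.Generic

/-!
# Zariski density of first-order properties modulo primes
-/

set_option autoImplicit false

namespace Pool.Agent.Q26.FO

open MvPolynomial

/-- the points of `K ^ α` with the property `R` are not Zariski dense: they are zeros of a nonzero
polynomial -/
def NotDense {α : Type} (R : Pred α) (K : Type) [Field K] : Prop :=
  ∃ Ψ : MvPolynomial α K, Ψ ≠ 0 ∧ ∀ x : α → K, R K x → eval x Ψ = 0

/-- the property `R` holds for all points outside of the hypersurface `Ψ = 0` -/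
def HoldsOutside {α : Type} (R : Pred α) (Ψ : MvPolynomial α ℤ) (K : Type) [Field K] : Prop :=
  ∀ x : α → K, aeval x Ψ ≠ 0 → R K x

/-- the property `R` does not hold for any point outside of the hypersurface `Ψ = 0` -/
def FailsOutside {α : Type} (R : Pred α) (Ψ : MvPolynomial α ℤ) (K : Type) [Field K] : Prop :=
  ∀ x : α → K, R K x → aeval x Ψ = 0

variable {α : Type}

theorem aeval_eq_eval_map {K : Type} [Field K] (Ψ : MvPolynomial α ℤ) (x : α → K) :
    aeval x Ψ = eval x (map (Int.castRingHom K) Ψ) := by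
  rw [eval_map, aeval_def]
  rfl

/-- a nonzero polynomial with integral coefficients stays nonzero modulo almost all primes -/
theorem finite_map_eq_zero (Ψ : MvPolynomial α ℤ) (h : Ψ ≠ 0) :
    {p : Nat.Primes | map (Int.castRingHom (Fbar p)) Ψ = 0}.Finite := by
  obtain ⟨m, hm⟩ := MvPolynomial.ne_zero_iff.1 h
  have h1 : {p : ℕ | p ≤ (coeff m Ψ).natAbs}.Finite := Set.finite_le_nat _
  refine (h1.preimage (f := fun p : Nat.Primes => (p : ℕ))
    (fun a _ b _ hab => Nat.Primes.coe_nat_injective hab)).subset fun p hp => ?_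
  have h2 : (coeff m (map (Int.castRingHom (Fbar p)) Ψ)) = 0 := by
    rw [show map (Int.castRingHom (Fbar p)) Ψ = 0 from hp, coeff_zero]
  rw [coeff_map] at h2
  have h3 : ((coeff m Ψ : ℤ) : Fbar p) = 0 := h2
  rw [CharP.intCast_eq_zero_iff (Fbar p) p] at h3
  have h4 : (p : ℕ) ∣ (coeff m Ψ).natAbs := Int.natCast_dvd.1 h3
  exact Nat.le_of_dvd (Int.natAbs_pos.2 hm) h4

theorem charZero_map_ne_zero (K : Type) [Field K] [CharZero K] (Ψ : MvPolynomial α ℤ)
    (h : Ψ ≠ 0) : map (Int.castRingHom K) Ψ ≠ 0 := fun h1 =>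
  h (map_injective (Int.castRingHom K) (RingHom.injective_int _) (by rw [h1, map_zero]))

theorem FailsOutside.notDense {R : Pred α} {Ψ : MvPolynomial α ℤ} {K : Type} [Field K]
    (h : FailsOutside R Ψ K) (h0 : map (Int.castRingHom K) Ψ ≠ 0) : NotDense R K :=
  ⟨map (Int.castRingHom K) Ψ, h0, fun x hx => by
    rw [← aeval_eq_eval_map]
    exact h x hx⟩

theorem HoldsOutside.dense {R : Pred α} {Ψ : MvPolynomial α ℤ} {K : Type} [Field K] [Infinite K]
    (h : HoldsOutside R Ψ K) (h0 : map (Int.castRingHom K) Ψ ≠ 0) : ¬ NotDense R K := by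
  rintro ⟨Φ, hΦ, h1⟩
  have h2 : map (Int.castRingHom K) Ψ * Φ ≠ 0 := mul_ne_zero h0 hΦ
  refine h2 (MvPolynomial.funext fun x => ?_)
  rw [map_mul, map_zero]
  by_cases h3 : aeval x Ψ = 0
  · rw [← aeval_eq_eval_map, h3, zero_mul]
  · rw [h1 x (h x h3), mul_zero]

theorem IsFirstOrder.holdsOutside {R : Pred α} (hR : IsFirstOrder R) (Ψ : MvPolynomial α ℤ) :
    IsFirstOrder (fun K _ (x : α → K) => aeval x Ψ ≠ 0 → R K x) :=
  (isFirstOrder_eval Ψ).not.imp hR

theorem IsFirstOrder.failsOutside {R : Pred α} (hR : IsFirstOrder R) (Ψ : MvPolynomial α ℤ) :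
    IsFirstOrder (fun K _ (x : α → K) => R K x → aeval x Ψ = 0) :=
  hR.imp (isFirstOrder_eval Ψ)

instance (p : Nat.Primes) : Infinite (Fbar p) := inferInstance

/-- The density law: if the complex points with the first-order property `R` are not Zariski
dense, then they are contained in a hypersurface with integral coefficients, and the same holds
over all algebraically closed fields of characteristic zero and over `F̄_p` for all but finitely
many primes `p`. -/
theorem IsFirstOrder.notDense_law [Finite α] {R : Pred α} (hR : IsFirstOrder R) :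
    [NotDense R ℂ,
      ∃ Ψ : MvPolynomial α ℤ, Ψ ≠ 0 ∧
        ∀ (K : Type) [Field K] [IsAlgClosed K] [CharZero K], FailsOutside R Ψ K,
      {p : Nat.Primes | NotDense R (Fbar p)}.Infinite,
      {p : Nat.Primes | ¬ NotDense R (Fbar p)}.Finite].TFAE := by
  have hchar : ∀ (K : Type) [Field K] [CharZero K], CharP K 0 := fun K _ _ =>
    CharP.ofCharZero K
  have hfail : ∀ Ψ : MvPolynomial α ℤ, FailsOutside R Ψ ℂ →
      ∀ (K : Type) [Field K] [IsAlgClosed K] [CharZero K], FailsOutside R Ψ K := by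
    intro Ψ h K _ _ _
    exact ((hR.failsOutside Ψ).holdsOver_iff 0 (Or.inr rfl) ℂ K).1 h
  tfae_have 1 → 2 := by
    intro h
    rcases hR.dichotomy with ⟨Ψ, hΨ, h1⟩ | ⟨Ψ, hΨ, h1⟩
    · exact absurd h (HoldsOutside.dense h1 (charZero_map_ne_zero ℂ Ψ hΨ))
    · exact ⟨Ψ, hΨ, hfail Ψ fun x hx => by
        by_contra h2
        exact h1 x h2 hx⟩
  tfae_have 2 → 4 := by
    rintro ⟨Ψ, hΨ, h⟩
    have h1 := ((hR.failsOutside Ψ).lefschetz ℂ).2.1 (h ℂ)
    refine (h1.union (finite_map_eq_zero Ψ hΨ)).subset fun p hp => ?_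
    by_contra h2
    rw [Set.mem_union, not_or] at h2
    refine hp ?_
    exact FailsOutside.notDense (Ψ := Ψ) (not_not.1 h2.1) h2.2
  tfae_have 4 → 3 := fun h => by
    have h1 := Set.Finite.infinite_compl h
    refine h1.mono fun p hp => ?_
    exact not_not.1 hp
  tfae_have 3 → 1 := by
    intro h
    rcases hR.dichotomy with ⟨Ψ, hΨ, h1⟩ | ⟨Ψ, hΨ, h1⟩
    · exfalso
      have h2 := ((hR.holdsOutside Ψ).lefschetz ℂ).2.1 h1
      have h3 := (h2.union (finite_map_eq_zero Ψ hΨ))
      obtain ⟨p, hp, hp2⟩ := h.exists_notMem_finite h3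
      rw [Set.mem_union, not_or] at hp2
      exact HoldsOutside.dense (Ψ := Ψ) (not_not.1 hp2.1) hp2.2 hp
    · refine FailsOutside.notDense (Ψ := Ψ) (fun x hx => ?_) (charZero_map_ne_zero ℂ Ψ hΨ)
      by_contra h2
      exact h1 x h2 hx
  tfae_finish

/-- if the complex points with the first-order property `R` are Zariski dense, then `R` holds
outside of a hypersurface with integral coefficients, over all algebraically closed fields of
characteristic zero and over `F̄_p` for all but finitely many primes `p` -/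
theorem IsFirstOrder.dense_law [Finite α] {R : Pred α} (hR : IsFirstOrder R) :
    [¬ NotDense R ℂ,
      ∃ Ψ : MvPolynomial α ℤ, Ψ ≠ 0 ∧
        (∀ (K : Type) [Field K] [IsAlgClosed K] [CharZero K], HoldsOutside R Ψ K) ∧
        {p : Nat.Primes | ¬ (map (Int.castRingHom (Fbar p)) Ψ ≠ 0 ∧
          HoldsOutside R Ψ (Fbar p))}.Finite,
      {p : Nat.Primes | ¬ NotDense R (Fbar p)}.Infinite,
      {p : Nat.Primes | NotDense R (Fbar p)}.Finite].TFAE := by
  have h0 := hR.notDense_law
  tfae_have 1 → 2 := by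
    intro h
    rcases hR.dichotomy with ⟨Ψ, hΨ, h1⟩ | ⟨Ψ, hΨ, h1⟩
    · refine ⟨Ψ, hΨ, fun K _ _ _ => ?_, ?_⟩
      · have : CharP ℂ 0 := CharP.ofCharZero ℂ
        have : CharP K 0 := CharP.ofCharZero K
        exact ((hR.holdsOutside Ψ).holdsOver_iff 0 (Or.inr rfl) ℂ K).1 h1
      · have h2 := ((hR.holdsOutside Ψ).lefschetz ℂ).2.1 h1
        refine (h2.union (finite_map_eq_zero Ψ hΨ)).subset fun p hp => ?_
        by_contra h3
        rw [Set.mem_union, not_or] at h3
        exact hp ⟨h3.2, not_not.1 h3.1⟩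
    · exfalso
      refine h (FailsOutside.notDense (Ψ := Ψ) (fun x hx => ?_) (charZero_map_ne_zero ℂ Ψ hΨ))
      by_contra h2
      exact h1 x h2 hx
  tfae_have 2 → 4 := by
    rintro ⟨Ψ, hΨ, -, h⟩
    refine h.subset fun p hp h1 => ?_
    exact HoldsOutside.dense h1.2 h1.1 hp
  tfae_have 4 → 3 := fun h => Set.Finite.infinite_compl h
  tfae_have 3 → 1 := by
    intro h h1
    exact h ((h0.out 0 3).1 h1)
  tfae_finish

end Pool.Agent.Q26.FO
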