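import Pool.Agent.Q26.FO.Bir

/-!
# Smooth cubic forms are irreducible
-/

set_option autoImplicit false

namespace Pool.Agent.Q26.FO

open MvPolynomial

/-- the partial derivatives of `F` have no common zero except the origin -/
def IsSmooth {r : ℕ} {K : Type} [Field K] (F : MvPolynomial (Fin r) K) : Prop :=
  ∀ x : Fin r → K, (∀ i, eval x (pderiv i F) = 0) → x = 0

section

variable {K : Type} [Field K] {n : ℕ}

theorem eval_smul_form {r d : ℕ} {F : MvPolynomial (Fin r) K} (hF : F.IsHomogeneous d)
    (t : K) (x : Fin r → K) : eval (fun i => t * x i) F = t ^ d * eval x F := by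
  rw [eval_eq, eval_eq, Finset.mul_sum]
  refine Finset.sum_congr rfl fun m hm => ?_
  have h3 : m.degree = d := by
    by_contra h4
    exact (mem_support_iff.1 hm) (hF.coeff_eq_zero h4)
  have h4 : ∏ i ∈ m.support, (t * x i) ^ m i = t ^ d * ∏ i ∈ m.support, x i ^ m i := by
    simp only [mul_pow]
    rw [Finset.prod_mul_distrib, Finset.prod_pow_eq_pow_sum, ← h3]
    rfl
  rw [h4]
  ring

theorem dehom_homog (e : ℕ) (h : MvPolynomial (Fin n) K) (he : h.totalDegree ≤ e) :
    dehom (homog e h) = h := by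
  unfold dehom
  rw [aeval_homog e h he _ X]
  · simp
  · intro j
    simp

theorem dehom_injective [Infinite K] {d : ℕ} {F G : MvPolynomial (Fin (n + 1)) K}
    (hF : F.IsHomogeneous d) (hG : G.IsHomogeneous d) (h : dehom F = dehom G) : F = G := by
  have h1 : X 0 * F = X 0 * G := by
    refine MvPolynomial.funext fun x => ?_
    rw [map_mul, map_mul, eval_X]
    by_cases h0 : x 0 = 0
    · rw [h0, zero_mul, zero_mul]
    · have h2 : ∀ P : MvPolynomial (Fin (n + 1)) K, P.IsHomogeneous d →
          eval x P = x 0 ^ d * aeval (fun j => x j.succ / x 0) (dehom P) := by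
        intro P hP
        rw [← aeval_of_isHomogeneous d P hP x _ (fun j => (mul_div_cancel₀ _ h0).symm)]
        rfl
      rw [h2 F hF, h2 G hG, h]
  exact mul_left_cancel₀ (X_ne_zero 0) h1

theorem totalDegree_dehom_le {d : ℕ} {F : MvPolynomial (Fin (n + 1)) K}
    (hF : F.IsHomogeneous d) : (dehom F).totalDegree ≤ d := by
  unfold dehom
  rw [aeval_def, eval₂_eq]
  refine (totalDegree_finsetSum _ _).trans (Finset.sup_le fun m hm => ?_)
  have h3 : m.degree = d := by
    by_contra h4
    exact (mem_support_iff.1 hm) (hF.coeff_eq_zero h4)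
  refine (totalDegree_mul _ _).trans ?_
  have h4 : (algebraMap K (MvPolynomial (Fin n) K) (coeff m F)).totalDegree = 0 :=
    totalDegree_C _
  rw [h4, zero_add]
  refine (totalDegree_finsetProd _ _).trans ?_
  rw [← h3]
  refine Finset.sum_le_sum fun i _ => ?_
  refine (totalDegree_pow _ _).trans ?_
  refine Fin.cases ?_ (fun j => ?_) i
  · simp
  · simp

/-- two linearly independent vectors in the kernel of a linear form -/
theorem exists_two (hn : 1 ≤ n) (L : (Fin (n + 2) → K) →ₗ[K] K) :
    ∃ u v : Fin (n + 2) → K, L u = 0 ∧ L v = 0 ∧ v ≠ 0 ∧ ∀ t : K, u + t • v ≠ 0 := by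
  have h1 : 2 ≤ Module.finrank K (LinearMap.ker L) := by
    have h2 := LinearMap.finrank_range_add_finrank_ker L
    rw [Module.finrank_fin_fun] at h2
    have h3 : Module.finrank K (LinearMap.range L) ≤ 1 := by
      have h4 := Submodule.finrank_le (LinearMap.range L)
      rwa [Module.finrank_self] at h4
    omega
  obtain ⟨f, hf⟩ := exists_linearIndependent_of_le_finrank h1
  have h2 : LinearIndependent K (fun i => ((f i : LinearMap.ker L) : Fin (n + 2) → K)) :=
    hf.map' (LinearMap.ker L).subtype (Submodule.ker_subtype _)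
  have h3 : LinearIndependent K ![(f 0 : Fin (n + 2) → K), (f 1 : Fin (n + 2) → K)] := by
    convert h2 using 1
    funext i
    fin_cases i <;> rfl
  rw [LinearIndependent.pair_iff] at h3
  refine ⟨f 0, f 1, (f 0).2, (f 1).2, fun h4 => ?_, fun t h4 => ?_⟩
  · have h5 := h3 0 1 (by rw [h4]; simp)
    exact one_ne_zero h5.2
  · have h5 := h3 1 t (by rw [one_smul, h4])
    exact one_ne_zero h5.1

theorem eval_linear {r : ℕ} {A : MvPolynomial (Fin r) K} (hA : A.IsHomogeneous 1) :
    ∃ L : (Fin r → K) →ₗ[K] K, ∀ x, eval x A = L x := by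
  refine ⟨∑ i, coeff 0 (pderiv i A) • LinearMap.proj i, fun x => ?_⟩
  have h1 : ∀ i, pderiv i A = C (coeff 0 (pderiv i A)) := by
    intro i
    have h2 : (pderiv i A).IsHomogeneous 0 := hA.pderiv
    exact totalDegree_eq_zero_iff_eq_C.1 ((totalDegree_zero_iff_isHomogeneous _).2 h2)
  have h3 := hA.sum_X_mul_pderiv
  rw [one_smul] at h3
  conv_lhs => rw [← h3]
  rw [map_sum, LinearMap.sum_apply]
  refine Finset.sum_congr rfl fun i _ => ?_
  rw [map_mul, eval_X, h1 i, eval_C, coeff_C]
  simp [mul_comm]

/-- a linear form and a quadratic form in at least three variables have a common zero -/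
theorem exists_common_zero [IsAlgClosed K] (hn : 1 ≤ n) {A Q : MvPolynomial (Fin (n + 2)) K}
    (hA : A.IsHomogeneous 1) (hQ : Q.IsHomogeneous 2) :
    ∃ x : Fin (n + 2) → K, x ≠ 0 ∧ eval x A = 0 ∧ eval x Q = 0 := by
  obtain ⟨L, hL⟩ := eval_linear hA
  obtain ⟨u, v, hu, hv, hv0, huv⟩ := exists_two hn L
  by_cases h1 : eval v Q = 0
  · exact ⟨v, hv0, by rw [hL, hv], h1⟩
  let p : Polynomial K := aeval (fun i => Polynomial.C (u i) + Polynomial.C (v i) * Polynomial.X) Q
  let q : Polynomial K := aeval (fun i => Polynomial.C (u i) * Polynomial.X + Polynomial.C (v i)) Q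
  have hp : ∀ t, p.eval t = eval (fun i => u i + v i * t) Q := by
    intro t
    simp only [p]
    rw [← Polynomial.coe_aeval_eq_eval, ← AlgHom.comp_apply, comp_aeval, aeval_eq_eval]
    simp
  have hq : ∀ t, q.eval t = eval (fun i => u i * t + v i) Q := by
    intro t
    simp only [q]
    rw [← Polynomial.coe_aeval_eq_eval, ← AlgHom.comp_apply, comp_aeval, aeval_eq_eval]
    simp
  have hdeg : p.degree ≠ 0 := by
    intro h2
    have h3 := Polynomial.eq_C_of_degree_eq_zero h2
    have h4 : Polynomial.X * q = Polynomial.X * (Polynomial.C (p.coeff 0) * Polynomial.X ^ 2) := by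
      refine Polynomial.funext fun t => ?_
      simp only [Polynomial.eval_mul, Polynomial.eval_X, Polynomial.eval_C, Polynomial.eval_pow]
      by_cases ht : t = 0
      · rw [ht, zero_mul, zero_mul]
      · have h5 : q.eval t = t ^ 2 * p.eval t⁻¹ := by
          rw [hq, hp, ← eval_smul_form hQ]
          congr 2
          funext i
          field_simp
        have h6 : p.eval t⁻¹ = p.coeff 0 := by
          rw [h3, Polynomial.eval_C, Polynomial.coeff_C_zero]
        rw [h5, h6]
        ring
    have h5 := mul_left_cancel₀ Polynomial.X_ne_zero h4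
    have h6 := hq 0
    rw [h5] at h6
    have h7 : (fun i => u i * 0 + v i) = v := by
      funext i
      rw [mul_zero, zero_add]
    rw [h7] at h6
    refine h1 (h6.symm.trans ?_)
    simp
  obtain ⟨t, ht⟩ := IsAlgClosed.exists_root p hdeg
  refine ⟨u + t • v, huv t, by rw [hL, map_add, map_smul, hu, hv, smul_zero, add_zero], ?_⟩
  have h7 := hp t
  rw [Polynomial.IsRoot.def] at ht
  rw [ht] at h7
  rw [h7]
  congr 2
  funext i
  simp [mul_comm]

theorem not_mul [IsAlgClosed K] (hn : 1 ≤ n) {F A Q : MvPolynomial (Fin (n + 2)) K}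
    (hA : A.IsHomogeneous 1) (hQ : Q.IsHomogeneous 2) (hF : IsSmooth F) : F ≠ A * Q := by
  rintro rfl
  obtain ⟨x, hx, h1, h2⟩ := exists_common_zero hn hA hQ
  refine hx (hF x fun i => ?_)
  rw [Derivation.leibniz, map_add, smul_eq_mul, smul_eq_mul, map_mul, map_mul, h1, h2, zero_mul,
    zero_mul, add_zero]

theorem isSmooth_ne_zero {r : ℕ} {F : MvPolynomial (Fin (r + 1)) K} (hF : IsSmooth F) :
    F ≠ 0 := by
  rintro rfl
  have h1 := hF (fun _ => 1) (fun i => by simp)
  exact one_ne_zero (congrFun h1 0)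

/-- a smooth cubic form in at least three variables over an algebraically closed field is
irreducible in the chart `x_0 = 1` -/
theorem irreducible_dehom [IsAlgClosed K] (hn : 1 ≤ n) {F : MvPolynomial (Fin (n + 2)) K}
    (hF3 : F.IsHomogeneous 3) (hF : IsSmooth F) : Irreducible (dehom F) := by
  have : Infinite K := IsAlgClosed.instInfinite
  have key : ∀ a b : MvPolynomial (Fin (n + 1)) K, dehom F = a * b → a.totalDegree = 1 → False := by
    intro a b hab ha
    have hab0 : a * b ≠ 0 := by
      rw [← hab]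
      intro h0
      refine isSmooth_ne_zero hF (dehom_injective hF3 (isHomogeneous_zero _ _ _) ?_)
      rw [h0, dehom, map_zero]
    have ha0 : a ≠ 0 := left_ne_zero_of_mul hab0
    have hb0 : b ≠ 0 := right_ne_zero_of_mul hab0
    have h1 := totalDegree_dehom_le hF3
    rw [hab, totalDegree_mul_of_isDomain ha0 hb0, ha] at h1
    have hb : b.totalDegree ≤ 2 := by omega
    refine not_mul hn (homog_isHomogeneous 1 a ha.le) (homog_isHomogeneous 2 b hb) hF ?_
    refine dehom_injective hF3 ((homog_isHomogeneous 1 a ha.le).mul (homog_isHomogeneous 2 b hb)) ?_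
    rw [dehom, dehom, map_mul]
    change dehom F = dehom (homog 1 a) * dehom (homog 2 b)
    rw [dehom_homog 1 a ha.le, dehom_homog 2 b hb, hab]
  have hunit : ∀ a : MvPolynomial (Fin (n + 1)) K, a ≠ 0 → ¬ IsUnit a → 1 ≤ a.totalDegree := by
    intro a ha hu
    by_contra h1
    have h2 : a.totalDegree = 0 := by omega
    rw [totalDegree_eq_zero_iff_eq_C] at h2
    refine hu ?_
    rw [h2]
    refine IsUnit.map C (IsUnit.mk0 _ fun h3 => ha ?_)
    rw [h2, h3, C_0]
  have h0 : dehom F ≠ 0 := by
    intro h0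
    refine isSmooth_ne_zero hF (dehom_injective hF3 (isHomogeneous_zero _ _ _) ?_)
    rw [h0, dehom, map_zero]
  refine ⟨fun hu => ?_, fun a b hab => ?_⟩
  · obtain ⟨c, -, hc⟩ := MvPolynomial.isUnit_iff_eq_C_of_isReduced.1 hu
    have h1 : (X 0 : MvPolynomial (Fin (n + 2)) K).IsHomogeneous 1 := isHomogeneous_X _ _
    have h2 : (C c * X 0 ^ 2 : MvPolynomial (Fin (n + 2)) K).IsHomogeneous 2 := by
      have h3 := (isHomogeneous_C (Fin (n + 2)) c).mul (h1.pow 2)
      simpa using h3
    refine not_mul hn h1 h2 hF (dehom_injective hF3 (h1.mul h2) ?_)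
    rw [hc]
    simp [dehom]
  · by_contra hu
    rw [not_or] at hu
    have hab0 : a * b ≠ 0 := hab ▸ h0
    have ha0 : a ≠ 0 := left_ne_zero_of_mul hab0
    have hb0 : b ≠ 0 := right_ne_zero_of_mul hab0
    have h1 := hunit a ha0 hu.1
    have h2 := hunit b hb0 hu.2
    have h3 := totalDegree_dehom_le hF3
    rw [hab, totalDegree_mul_of_isDomain ha0 hb0] at h3
    by_cases h4 : a.totalDegree = 1
    · exact key a b hab h4
    · exact key b a (by rw [hab, mul_comm]) (by omega)

end

end Pool.Agent.Q26.FO
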